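import Mathlib

/-!
# Stability of 2-cocycles on a finite abelian group

If a function `Φ : H × H → A` satisfies the cocycle identity for more than `39/40` of all triples then
it agrees with a genuine cocycle, up to a coboundary, for most pairs.
-/

namespace Pool.Agent.H46.N99

open Finset

/-- Indicator of the failure of `p`. -/
noncomputable def J (p : Prop) : ℝ := by
  classical
  exact if p then 0 else 1

theorem J_nonneg (p : Prop) : 0 ≤ J p := by
  unfold J; split_ifs <;> norm_num

theorem J_le_one (p : Prop) : J p ≤ 1 := by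
  unfold J; split_ifs <;> norm_num

theorem J_of_true {p : Prop} (h : p) : J p = 0 := by
  unfold J; rw [if_pos h]

theorem J_of_false {p : Prop} (h : ¬ p) : J p = 1 := by
  unfold J; rw [if_neg h]

theorem J_mono {p q : Prop} (h : p → q) : J q ≤ J p := by
  by_cases hp : p
  · rw [J_of_true hp, J_of_true (h hp)]
  · rw [J_of_false hp]; exact J_le_one q

theorem J_two {p q s : Prop} (h : p → q → s) : J s ≤ J p + J q := by
  by_cases hp : p
  · by_cases hq : q
    · rw [J_of_true (h hp hq)]; exact add_nonneg (J_nonneg _) (J_nonneg _)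
    · rw [J_of_false hq]; linarith [J_le_one s, J_nonneg p]
  · rw [J_of_false hp]; linarith [J_le_one s, J_nonneg q]

theorem J_four {p q r t s : Prop} (h : p → q → r → t → s) : J s ≤ J p + J q + J r + J t := by
  have h1 : J (p ∧ q) ≤ J p + J q := J_two fun a b => ⟨a, b⟩
  have h2 : J (r ∧ t) ≤ J r + J t := J_two fun a b => ⟨a, b⟩
  have h3 : J s ≤ J (p ∧ q) + J (r ∧ t) := J_two fun a b => h a.1 a.2 b.1 b.2
  linarith

set_option linter.unusedSectionVars false

variable {H A : Type*} [AddCommGroup H] [Fintype H] [AddCommGroup A]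

/-- The cocycle identity at a triple. -/
def Co (Φ : H → H → A) (x y z : H) : Prop := Φ x y + Φ (x + y) z = Φ y z + Φ x (y + z)

/-- The number of triples where the cocycle identity fails. -/
noncomputable def fails (Φ : H → H → A) : ℝ := ∑ x, ∑ y, ∑ z, J (Co Φ x y z)

theorem fails_nonneg (Φ : H → H → A) : 0 ≤ fails Φ :=
  sum_nonneg fun _ _ => sum_nonneg fun _ _ => sum_nonneg fun _ _ => J_nonneg _

/-- Change of variables. -/
theorem sum3 (f : H → H → H → ℝ) (e : H × H × H → H × H × H) (he : Function.Bijective e) :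
    ∑ x, ∑ y, ∑ z, f (e (x, y, z)).1 (e (x, y, z)).2.1 (e (x, y, z)).2.2
      = ∑ x, ∑ y, ∑ z, f x y z := by
  have h1 : ∀ g : H → H → H → ℝ, ∑ x, ∑ y, ∑ z, g x y z = ∑ t : H × H × H, g t.1 t.2.1 t.2.2 := by
    intro g
    rw [Fintype.sum_prod_type]
    refine sum_congr rfl fun x _ => ?_
    rw [Fintype.sum_prod_type]
  rw [h1 f, ← he.sum_comp (fun t : H × H × H => f t.1 t.2.1 t.2.2)]
  exact h1 (fun x y z => f (e (x, y, z)).1 (e (x, y, z)).2.1 (e (x, y, z)).2.2)

/-- Auxiliary function. -/
def G (Φ : H → H → A) (y r x : H) : A := Φ r x + Φ (y - r) (x + r)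

theorem step1_id (Φ : H → H → A) (y r k x : H) (h1 : Co Φ k r x) (h2 : Co Φ (y - r - k) k (x + r)) :
    G Φ y r x = G Φ y (r + k) x + (Φ k r - Φ (y - r - k) k) := by
  unfold Co at h1 h2
  unfold G
  have e1 : y - (r + k) = y - r - k := by abel
  have e2 : x + (r + k) = k + (x + r) := by abel
  have e3 : r + k = k + r := by abel
  have e4 : y - r - k + k = y - r := by abel
  have e5 : r + x = x + r := by abel
  rw [e1, e2, e3]
  rw [e4] at h2
  rw [e5] at h1
  have h1' : Φ r x = Φ k r + Φ (k + r) x - Φ k (x + r) := by rw [h1]; abel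
  have h2' : Φ (y - r) (x + r) = Φ k (x + r) + Φ (y - r - k) (k + (x + r)) - Φ (y - r - k) k := by
    rw [← h2]; abel
  rw [h1', h2']
  abel

theorem step1 (Φ : H → H → A) (y : H) : ∃ (g γ : H → A),
    (Fintype.card H : ℝ) * ∑ r, ∑ x, J (g x = G Φ y r x + γ r) ≤ 2 * fails Φ := by
  have h1 : ∑ r, ∑ k, ∑ x, J (G Φ y r x = G Φ y (r + k) x + (Φ k r - Φ (y - r - k) k))
      ≤ 2 * fails Φ := by
    have h2 : ∑ r, ∑ k, ∑ x, J (Co Φ k r x) = fails Φ := by
      unfold fails
      exact sum_comm
    have h3 : ∑ r, ∑ k, ∑ x, J (Co Φ (y - r - k) k (x + r)) = fails Φ := by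
      unfold fails
      refine sum3 (fun a b c => J (Co Φ a b c)) (fun t => (y - t.1 - t.2.1, t.2.1, t.2.2 + t.1)) ?_
      refine Function.bijective_iff_has_inverse.mpr
        ⟨fun t => (y - t.1 - t.2.1, t.2.1, t.2.2 - (y - t.1 - t.2.1)), ?_, ?_⟩
      · rintro ⟨a, b, c⟩
        refine Prod.ext ?_ (Prod.ext ?_ ?_)
        · simp only; abel
        · simp
        · simp only; abel
      · rintro ⟨a, b, c⟩
        refine Prod.ext ?_ (Prod.ext ?_ ?_)
        · simp only; abel
        · simp
        · simp only; abel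
    calc _ ≤ ∑ r, ∑ k, ∑ x, (J (Co Φ k r x) + J (Co Φ (y - r - k) k (x + r))) := by
          refine sum_le_sum fun r _ => sum_le_sum fun k _ => sum_le_sum fun x _ => ?_
          exact J_two (step1_id Φ y r k x)
      _ = 2 * fails Φ := by
          simp only [sum_add_distrib]
          rw [h2, h3]; ring
  obtain ⟨r, -, hr⟩ := exists_le_of_sum_le (s := (univ : Finset H))
    (f := fun r => ∑ k, ∑ x, J (G Φ y r x = G Φ y (r + k) x + (Φ k r - Φ (y - r - k) k)))
    (g := fun _ => 2 * fails Φ / Fintype.card H) univ_nonempty (by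
      rw [sum_const, card_univ, nsmul_eq_mul]
      have : (Fintype.card H : ℝ) ≠ 0 := by exact_mod_cast Fintype.card_ne_zero
      rw [mul_div_cancel₀ _ this]
      exact h1)
  refine ⟨G Φ y r, fun s => Φ (s - r) r - Φ (y - r - (s - r)) (s - r), ?_⟩
  have h4 : ∑ s, ∑ x, J (G Φ y r x = G Φ y s x + (Φ (s - r) r - Φ (y - r - (s - r)) (s - r)))
      = ∑ k, ∑ x, J (G Φ y r x = G Φ y (r + k) x + (Φ k r - Φ (y - r - k) k)) := by
    refine (Equiv.sum_comp (Equiv.addLeft r) _).symm.trans ?_
    refine sum_congr rfl fun k _ => ?_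
    simp only [Equiv.coe_addLeft, add_sub_cancel_left]
  rw [h4]
  have : (0 : ℝ) < Fintype.card H := by exact_mod_cast Fintype.card_pos
  calc (Fintype.card H : ℝ) * ∑ k, ∑ x, J (G Φ y r x = G Φ y (r + k) x + (Φ k r - Φ (y - r - k) k))
      ≤ Fintype.card H * (2 * fails Φ / Fintype.card H) := by
        exact mul_le_mul_of_nonneg_left hr this.le
    _ = 2 * fails Φ := by field_simp

theorem step2_id (Φ : H → H → A) (y z r r' x : H) (h1 : Co Φ r' r x)
    (h2 : Co Φ (y - r') (z - r) (x + r + r')) (h3 : Co Φ r' (z - r) (x + r))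
    (h4 : Co Φ (z - r) r' (x + r)) :
    G Φ z r x + G Φ y r' (x + z) - G Φ (y + z) (r + r') x
      = Φ r' r + Φ (y - r') (z - r) + Φ r' (z - r) - Φ (z - r) r' := by
  unfold Co at h1 h2 h3 h4
  unfold G
  have e1 : y + z - (r + r') = (y - r') + (z - r) := by abel
  have e2 : x + (r + r') = x + r + r' := by abel
  have e3 : r + r' = r' + r := by abel
  have e4 : z - r + (x + r + r') = x + z + r' := by abel
  have e5 : z - r + (x + r) = x + z := by abel
  have e6 : r + x = x + r := by abel
  have e7 : r' + (x + r) = x + r + r' := by abel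
  have e8 : z - r + r' = r' + (z - r) := by abel
  rw [e1, e2, e3]
  rw [e6] at h1
  rw [e4] at h2
  rw [e5] at h3
  rw [e7, e8] at h4
  have h1' : Φ (r' + r) x = Φ r x + Φ r' (x + r) - Φ r' r := by rw [← h1]; abel
  have h2' : Φ (y - r' + (z - r)) (x + r + r')
      = Φ (z - r) (x + r + r') + Φ (y - r') (x + z + r') - Φ (y - r') (z - r) := by
    rw [← h2]; abel
  have h3' : Φ r' (x + z) = Φ r' (z - r) + Φ (r' + (z - r)) (x + r) - Φ (z - r) (x + r) := by
    rw [h3]; abel
  have h4' : Φ (r' + (z - r)) (x + r) = Φ r' (x + r) + Φ (z - r) (x + r + r') - Φ (z - r) r' := by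
    rw [← h4]; abel
  rw [h1', h2', h3', h4']
  abel

theorem step2 (Φ : H → H → A) (y z : H) :
    ∑ r, ∑ r', ∑ x, J (G Φ z r x + G Φ y r' (x + z) - G Φ (y + z) (r + r') x
      = Φ r' r + Φ (y - r') (z - r) + Φ r' (z - r) - Φ (z - r) r') ≤ 4 * fails Φ := by
  have h1 : ∑ r, ∑ r', ∑ x, J (Co Φ r' r x) = fails Φ := by
    unfold fails
    exact sum_comm
  have h2 : ∑ r, ∑ r', ∑ x, J (Co Φ (y - r') (z - r) (x + r + r')) = fails Φ := by
    unfold fails
    refine sum3 (fun a b c => J (Co Φ a b c)) (fun t => (y - t.2.1, z - t.1, t.2.2 + t.1 + t.2.1)) ?_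
    refine Function.bijective_iff_has_inverse.mpr
      ⟨fun t => (z - t.2.1, y - t.1, t.2.2 - (z - t.2.1) - (y - t.1)), ?_, ?_⟩
    · rintro ⟨a, b, c⟩
      refine Prod.ext ?_ (Prod.ext ?_ ?_)
      · simp
      · simp
      · simp only; abel
    · rintro ⟨a, b, c⟩
      refine Prod.ext ?_ (Prod.ext ?_ ?_)
      · simp
      · simp
      · simp only; abel
  have h3 : ∑ r, ∑ r', ∑ x, J (Co Φ r' (z - r) (x + r)) = fails Φ := by
    unfold fails
    refine sum3 (fun a b c => J (Co Φ a b c)) (fun t => (t.2.1, z - t.1, t.2.2 + t.1)) ?_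
    refine Function.bijective_iff_has_inverse.mpr
      ⟨fun t => (z - t.2.1, t.1, t.2.2 - (z - t.2.1)), ?_, ?_⟩
    · rintro ⟨a, b, c⟩
      refine Prod.ext ?_ (Prod.ext ?_ ?_)
      · simp
      · simp
      · simp
    · rintro ⟨a, b, c⟩
      refine Prod.ext ?_ (Prod.ext ?_ ?_)
      · simp
      · simp
      · simp
  have h4 : ∑ r, ∑ r', ∑ x, J (Co Φ (z - r) r' (x + r)) = fails Φ := by
    unfold fails
    refine sum3 (fun a b c => J (Co Φ a b c)) (fun t => (z - t.1, t.2.1, t.2.2 + t.1)) ?_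
    refine Function.bijective_iff_has_inverse.mpr
      ⟨fun t => (z - t.1, t.2.1, t.2.2 - (z - t.1)), ?_, ?_⟩
    · rintro ⟨a, b, c⟩
      refine Prod.ext ?_ (Prod.ext ?_ ?_)
      · simp
      · simp
      · simp
    · rintro ⟨a, b, c⟩
      refine Prod.ext ?_ (Prod.ext ?_ ?_)
      · simp
      · simp
      · simp
  calc _ ≤ ∑ r, ∑ r', ∑ x, (J (Co Φ r' r x) + J (Co Φ (y - r') (z - r) (x + r + r'))
        + J (Co Φ r' (z - r) (x + r)) + J (Co Φ (z - r) r' (x + r))) := by
        refine sum_le_sum fun r _ => sum_le_sum fun r' _ => sum_le_sum fun x _ => ?_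
        exact J_four (step2_id Φ y z r r' x)
    _ = 4 * fails Φ := by
        simp only [sum_add_distrib]
        rw [h1, h2, h3, h4]; ring

/-- **Stability of 2-cocycles.** -/
theorem stab (Φ : H → H → A) (hΦ : 40 * fails Φ < (Fintype.card H : ℝ) ^ 3) :
    ∃ (D : H → H → A) (c : H → A), (∀ x y z, Co D x y z) ∧
      (Fintype.card H : ℝ) * ∑ y, ∑ z, J (Φ y z = D y z - c y - c z + c (y + z))
        ≤ 20 * fails Φ := by
  classical
  set N : ℝ := (Fintype.card H : ℝ) with hN
  have hNpos : 0 < N := by rw [hN]; exact_mod_cast Fintype.card_pos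
  choose g γ hg using step1 Φ
  -- relation for every pair
  have hrel : ∀ y z, ∃ d : A, N ^ 2 * ∑ x, J (g z x + g y (x + z) - g (y + z) x = d)
      ≤ 10 * fails Φ := by
    intro y z
    set L : H → H → A := fun r r' => Φ r' r + Φ (y - r') (z - r) + Φ r' (z - r) - Φ (z - r) r'
      + γ z r + γ y r' - γ (y + z) (r + r') with hL
    have h1 : ∑ r, ∑ r', ∑ x, J (g z x + g y (x + z) - g (y + z) x = L r r') ≤ 10 * fails Φ := by
      have a1 : ∑ r, ∑ _r' : H, ∑ x, J (g z x = G Φ z r x + γ z r) ≤ 2 * fails Φ := by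
        refine le_trans (le_of_eq ?_) (hg z)
        rw [mul_sum]
        refine sum_congr rfl fun r _ => ?_
        rw [sum_const, card_univ, nsmul_eq_mul]
      have a2 : ∑ _r : H, ∑ r', ∑ x, J (g y (x + z) = G Φ y r' (x + z) + γ y r') ≤ 2 * fails Φ := by
        refine le_trans (le_of_eq ?_) (hg y)
        rw [sum_const, card_univ, nsmul_eq_mul]
        congr 1
        refine sum_congr rfl fun r' _ => ?_
        exact Equiv.sum_comp (Equiv.addRight z) (fun x => J (g y x = G Φ y r' x + γ y r'))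
      have a3 : ∑ r, ∑ r', ∑ x, J (g (y + z) x = G Φ (y + z) (r + r') x + γ (y + z) (r + r'))
          ≤ 2 * fails Φ := by
        refine le_trans (le_of_eq ?_) (hg (y + z))
        have : ∀ r : H, ∑ r', ∑ x, J (g (y + z) x = G Φ (y + z) (r + r') x + γ (y + z) (r + r'))
            = ∑ s, ∑ x, J (g (y + z) x = G Φ (y + z) s x + γ (y + z) s) := fun r =>
          Equiv.sum_comp (Equiv.addLeft r)
            (fun s => ∑ x, J (g (y + z) x = G Φ (y + z) s x + γ (y + z) s))
        simp only [this]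
        rw [sum_const, card_univ, nsmul_eq_mul]
      calc _ ≤ ∑ r, ∑ r', ∑ x, (J (G Φ z r x + G Φ y r' (x + z) - G Φ (y + z) (r + r') x
              = Φ r' r + Φ (y - r') (z - r) + Φ r' (z - r) - Φ (z - r) r')
              + J (g z x = G Φ z r x + γ z r) + J (g y (x + z) = G Φ y r' (x + z) + γ y r')
              + J (g (y + z) x = G Φ (y + z) (r + r') x + γ (y + z) (r + r'))) := by
            refine sum_le_sum fun r _ => sum_le_sum fun r' _ => sum_le_sum fun x _ => ?_
            refine J_four fun b1 b2 b3 b4 => ?_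
            rw [b2, b3, b4, hL]
            simp only
            rw [← b1]
            abel
        _ ≤ 10 * fails Φ := by
            simp only [sum_add_distrib]
            have := step2 Φ y z
            linarith
    have h2 : ∑ t : H × H, ∑ x, J (g z x + g y (x + z) - g (y + z) x = L t.1 t.2)
        ≤ ∑ _t : H × H, 10 * fails Φ / N ^ 2 := by
      rw [Fintype.sum_prod_type, sum_const, card_univ, Fintype.card_prod, nsmul_eq_mul]
      push_cast
      rw [← hN]
      have : N * N * (10 * fails Φ / N ^ 2) = 10 * fails Φ := by field_simp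
      rw [this]
      exact h1
    obtain ⟨t, -, ht⟩ := exists_le_of_sum_le univ_nonempty h2
    refine ⟨L t.1 t.2, ?_⟩
    calc N ^ 2 * ∑ x, J (g z x + g y (x + z) - g (y + z) x = L t.1 t.2)
        ≤ N ^ 2 * (10 * fails Φ / N ^ 2) := mul_le_mul_of_nonneg_left ht (by positivity)
      _ = 10 * fails Φ := by field_simp
  choose D hD using hrel
  -- the constants
  have hc : ∃ c : H → A, N * ∑ y, ∑ x, J (g y x = Φ y x + c y) ≤ 3 * fails Φ := by
    have h1 : ∑ y, ∑ r, ∑ x, J (G Φ y r x = Φ (y - r) r + Φ y x) ≤ fails Φ := by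
      have h2 : ∑ y, ∑ r, ∑ x, J (Co Φ (y - r) r x) = fails Φ := by
        unfold fails
        refine sum3 (fun a b c => J (Co Φ a b c)) (fun t => (t.1 - t.2.1, t.2.1, t.2.2)) ?_
        refine Function.bijective_iff_has_inverse.mpr
          ⟨fun t => (t.1 + t.2.1, t.2.1, t.2.2), ?_, ?_⟩
        · rintro ⟨a, b, c⟩; simp
        · rintro ⟨a, b, c⟩; simp
      rw [← h2]
      refine sum_le_sum fun y _ => sum_le_sum fun r _ => sum_le_sum fun x _ => J_mono ?_
      intro h
      unfold Co at h
      unfold G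
      rw [sub_add_cancel] at h
      rw [h, add_comm x r]
    have h2 : ∑ y, ∑ r, ∑ x, J (g y x = Φ y x + (Φ (y - r) r + γ y r)) ≤ 3 * fails Φ := by
      have h3 : ∑ y, ∑ r, ∑ x, J (g y x = G Φ y r x + γ y r) ≤ 2 * fails Φ := by
        have h4 : ∀ y ∈ (univ : Finset H), ∑ r, ∑ x, J (g y x = G Φ y r x + γ y r)
            ≤ 2 * fails Φ / N := by
          intro y _
          rw [le_div_iff₀ hNpos, mul_comm]
          exact hg y
        refine le_trans (sum_le_sum h4) (le_of_eq ?_)
        rw [sum_const, card_univ, nsmul_eq_mul, ← hN]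
        field_simp
      calc _ ≤ ∑ y, ∑ r, ∑ x, (J (G Φ y r x = Φ (y - r) r + Φ y x)
              + J (g y x = G Φ y r x + γ y r)) := by
            refine sum_le_sum fun y _ => sum_le_sum fun r _ => sum_le_sum fun x _ => ?_
            refine J_two fun b1 b2 => ?_
            rw [b2, b1]
            abel
        _ ≤ 3 * fails Φ := by
            simp only [sum_add_distrib]
            linarith
    have h5 : ∀ y, ∃ r, N * ∑ x, J (g y x = Φ y x + (Φ (y - r) r + γ y r))
        ≤ ∑ r, ∑ x, J (g y x = Φ y x + (Φ (y - r) r + γ y r)) := by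
      intro y
      obtain ⟨r, -, hr⟩ := exists_le_of_sum_le (s := (univ : Finset H))
        (f := fun r => ∑ x, J (g y x = Φ y x + (Φ (y - r) r + γ y r)))
        (g := fun _ => (∑ r, ∑ x, J (g y x = Φ y x + (Φ (y - r) r + γ y r))) / N)
        univ_nonempty (by
          rw [sum_const, card_univ, nsmul_eq_mul, ← hN, mul_div_cancel₀ _ hNpos.ne'])
      refine ⟨r, ?_⟩
      calc N * ∑ x, J (g y x = Φ y x + (Φ (y - r) r + γ y r))
          ≤ N * ((∑ r, ∑ x, J (g y x = Φ y x + (Φ (y - r) r + γ y r))) / N) :=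
            mul_le_mul_of_nonneg_left hr hNpos.le
        _ = _ := by rw [mul_div_cancel₀ _ hNpos.ne']
    choose ρ hρ using h5
    refine ⟨fun y => Φ (y - ρ y) (ρ y) + γ y (ρ y), ?_⟩
    rw [mul_sum]
    exact le_trans (sum_le_sum fun y _ => hρ y) h2
  obtain ⟨c, hc⟩ := hc
  refine ⟨D, c, ?_, ?_⟩
  · -- exactness
    intro p q s
    by_contra hne
    have h1 : ∀ x : H, (1 : ℝ) ≤ J (g s x + g q (x + s) - g (q + s) x = D q s)
        + J (g (q + s) x + g p (x + (q + s)) - g (p + (q + s)) x = D p (q + s))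
        + J (g q (x + s) + g p (x + s + q) - g (p + q) (x + s) = D p q)
        + J (g s x + g (p + q) (x + s) - g (p + q + s) x = D (p + q) s) := by
      intro x
      rw [← J_of_false hne]
      refine J_four fun b1 b2 b3 b4 => ?_
      unfold Co
      rw [← b1, ← b2, ← b3, ← b4]
      have e1 : x + (q + s) = x + s + q := by abel
      have e2 : p + (q + s) = p + q + s := by abel
      rw [e1, e2]
      abel
    have h2 := sum_le_sum (s := (univ : Finset H)) fun x _ => h1 x
    simp only [sum_add_distrib, sum_const, card_univ, nsmul_eq_mul, mul_one] at h2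
    have h3 : ∑ x, J (g q (x + s) + g p (x + s + q) - g (p + q) (x + s) = D p q)
        = ∑ x, J (g q x + g p (x + q) - g (p + q) x = D p q) :=
      Equiv.sum_comp (Equiv.addRight s) (fun x => J (g q x + g p (x + q) - g (p + q) x = D p q))
    rw [h3, ← hN] at h2
    have k1 := hD q s
    have k2 := hD p (q + s)
    have k3 := hD p q
    have k4 := hD (p + q) s
    have h4 : N ^ 2 * N ≤ 40 * fails Φ := by
      refine le_trans (mul_le_mul_of_nonneg_left h2 (by positivity : (0 : ℝ) ≤ N ^ 2)) ?_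
      rw [mul_add, mul_add, mul_add]
      linarith
    have : N ^ 3 = N ^ 2 * N := by ring
    linarith
  · -- closeness
    have h1 : ∑ y, ∑ z, ∑ x, J (g z x + g y (x + z) - g (y + z) x = D y z) ≤ 10 * fails Φ := by
      have h4 : ∀ y z : H, ∑ x, J (g z x + g y (x + z) - g (y + z) x = D y z)
          ≤ 10 * fails Φ / N ^ 2 := by
        intro y z
        rw [le_div_iff₀ (by positivity), mul_comm]
        exact hD y z
      refine le_trans (sum_le_sum fun y _ => sum_le_sum fun z _ => h4 y z) (le_of_eq ?_)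
      simp only [sum_const, card_univ, nsmul_eq_mul, ← hN]
      field_simp
    have hcc : ∀ (e : H × H × H → H × H × H), Function.Bijective e →
        ∑ y, ∑ z, ∑ x, J (g (e (y, z, x)).1 (e (y, z, x)).2.1
          = Φ (e (y, z, x)).1 (e (y, z, x)).2.1 + c (e (y, z, x)).1) ≤ 3 * fails Φ := by
      intro e he
      rw [sum3 (fun a b _ => J (g a b = Φ a b + c a)) e he]
      refine le_trans (le_of_eq ?_) hc
      rw [mul_sum]
      refine sum_congr rfl fun y _ => ?_
      rw [mul_sum]
      refine sum_congr rfl fun x _ => ?_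
      change ∑ _z : H, J (g y x = Φ y x + c y) = N * J (g y x = Φ y x + c y)
      rw [sum_const, card_univ, nsmul_eq_mul]
    have h2 : ∑ _y : H, ∑ z, ∑ x, J (g z x = Φ z x + c z) ≤ 3 * fails Φ := by
      refine hcc (fun t => (t.2.1, t.2.2, t.1)) ?_
      refine Function.bijective_iff_has_inverse.mpr ⟨fun t => (t.2.2, t.1, t.2.1), ?_, ?_⟩
      · rintro ⟨a, b, c⟩; rfl
      · rintro ⟨a, b, c⟩; rfl
    have h3 : ∑ y, ∑ z, ∑ x, J (g y (x + z) = Φ y (x + z) + c y) ≤ 3 * fails Φ := by
      refine hcc (fun t => (t.1, t.2.2 + t.2.1, t.2.1)) ?_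
      refine Function.bijective_iff_has_inverse.mpr ⟨fun t => (t.1, t.2.2, t.2.1 - t.2.2), ?_, ?_⟩
      · rintro ⟨a, b, c⟩; simp
      · rintro ⟨a, b, c⟩; simp
    have h4 : ∑ y, ∑ z, ∑ x, J (g (y + z) x = Φ (y + z) x + c (y + z)) ≤ 3 * fails Φ := by
      refine hcc (fun t => (t.1 + t.2.1, t.2.2, t.2.1)) ?_
      refine Function.bijective_iff_has_inverse.mpr ⟨fun t => (t.1 - t.2.2, t.2.2, t.2.1), ?_, ?_⟩
      · rintro ⟨a, b, c⟩; simp
      · rintro ⟨a, b, c⟩; simp
    have h5 : ∑ y, ∑ z, ∑ x, J (Co Φ y z x) = fails Φ := rfl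
    have h6 : N * ∑ y, ∑ z, J (Φ y z = D y z - c y - c z + c (y + z))
        = ∑ y, ∑ z, ∑ _x : H, J (Φ y z = D y z - c y - c z + c (y + z)) := by
      rw [mul_sum]
      refine sum_congr rfl fun y _ => ?_
      rw [mul_sum]
      refine sum_congr rfl fun z _ => ?_
      rw [sum_const, card_univ, nsmul_eq_mul]
    rw [h6]
    calc _ ≤ ∑ y, ∑ z, ∑ x, ((J (g z x + g y (x + z) - g (y + z) x = D y z)
            + J (g z x = Φ z x + c z) + J (g y (x + z) = Φ y (x + z) + c y)
            + J (g (y + z) x = Φ (y + z) x + c (y + z))) + J (Co Φ y z x)) := by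
          refine sum_le_sum fun y _ => sum_le_sum fun z _ => sum_le_sum fun x _ => ?_
          have k1 : J ((g z x + g y (x + z) - g (y + z) x = D y z) ∧ (g z x = Φ z x + c z)
              ∧ (g y (x + z) = Φ y (x + z) + c y) ∧ (g (y + z) x = Φ (y + z) x + c (y + z)))
              ≤ J (g z x + g y (x + z) - g (y + z) x = D y z)
            + J (g z x = Φ z x + c z) + J (g y (x + z) = Φ y (x + z) + c y)
            + J (g (y + z) x = Φ (y + z) x + c (y + z)) :=
            J_four fun a b c d => ⟨a, b, c, d⟩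
          have k2 : J (Φ y z = D y z - c y - c z + c (y + z))
              ≤ J ((g z x + g y (x + z) - g (y + z) x = D y z) ∧ (g z x = Φ z x + c z)
              ∧ (g y (x + z) = Φ y (x + z) + c y) ∧ (g (y + z) x = Φ (y + z) x + c (y + z)))
              + J (Co Φ y z x) := by
            refine J_two fun b1 b2 => ?_
            obtain ⟨c1, c2, c3, c4⟩ := b1
            unfold Co at b2
            rw [← c1, c2, c3, c4]
            have e1 : x + z = z + x := by abel
            rw [e1]
            have b3 : Φ y z = Φ z x + Φ y (z + x) - Φ (y + z) x := by rw [← b2]; abel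
            rw [b3]
            abel
          linarith
      _ ≤ 20 * fails Φ := by
          simp only [sum_add_distrib]
          rw [h5]
          linarith

end Pool.Agent.H46.N99
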