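import Mathlib
import Pool.Agent.H46.N99.Coc

/-!
# Approximate cocycles with values in a group with an invariant length (exponent two)
-/

namespace Pool.Agent.H46.N99

open Finset

set_option linter.unusedSectionVars false

/-- A length function on an abelian group. -/
structure IsLen {U : Type*} [AddCommGroup U] (n : U → ℝ) : Prop where
  zero : n 0 = 0
  neg : ∀ g, n (-g) = n g
  add_le : ∀ g h, n (g + h) ≤ n g + n h

namespace IsLen

variable {U : Type*} [AddCommGroup U] {n : U → ℝ} (hn : IsLen n)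
include hn

theorem nonneg (g : U) : 0 ≤ n g := by
  have h1 := hn.add_le g (-g)
  rw [add_neg_cancel, hn.zero, hn.neg] at h1
  linarith

theorem sub_le (g h : U) : n (g - h) ≤ n g + n h := by
  rw [sub_eq_add_neg]
  have := hn.add_le g (-h)
  rw [hn.neg] at this
  exact this

end IsLen

variable {H U : Type*} [AddCommGroup H] [Fintype H] [AddCommGroup U]

/-- Defect of the cocycle identity. -/
def dd (F : H → H → U) (x y z : H) : U := F x y + F (x + y) z - F y z - F x (y + z)

/-- Total length of the defect. -/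
noncomputable def tot (n : U → ℝ) (F : H → H → U) : ℝ := ∑ x, ∑ y, ∑ z, n (dd F x y z)

theorem sum3' (f : H → H → H → ℝ) (e : H × H × H → H × H × H) (he : Function.Bijective e) (b : ℝ)
    (hb : ∑ x, ∑ y, ∑ z, f x y z ≤ b) :
    ∑ x, ∑ y, ∑ z, f (e (x, y, z)).1 (e (x, y, z)).2.1 (e (x, y, z)).2.2 ≤ b := by
  rw [sum3 f e he]; exact hb

/-- `K y x = F y x + F y (x + y)`. -/
def KK (F : H → H → U) (y x : H) : U := F y x + F y (x + y)

theorem exists_kappa {n : U → ℝ} (hn : IsLen n) (h2 : ∀ x : H, x + x = 0) (F : H → H → U) :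
    ∃ κ : H → U, (Fintype.card H : ℝ) * ∑ y, ∑ x, n (KK F y x - κ y) ≤ 2 * tot n F := by
  have h3 : ∑ x0, ∑ y, ∑ x, n (KK F y x - KK F y x0) ≤ 2 * tot n F := by
    have a1 : ∑ x0, ∑ y, ∑ x, n (dd F y x (x + x0)) = tot n F := by
      unfold tot
      refine sum3 (fun a b c => n (dd F a b c)) (fun t => (t.2.1, t.2.2, t.2.2 + t.1)) ?_
      refine Function.bijective_iff_has_inverse.mpr ⟨fun t => (t.2.2 - t.2.1, t.1, t.2.1), ?_, ?_⟩
      · rintro ⟨a, b, c⟩; simp
      · rintro ⟨a, b, c⟩; simp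
    have a2 : ∑ x0, ∑ y, ∑ x, n (dd F y (y + x) (x + x0)) = tot n F := by
      unfold tot
      refine sum3 (fun a b c => n (dd F a b c)) (fun t => (t.2.1, t.2.1 + t.2.2, t.2.2 + t.1)) ?_
      refine Function.bijective_iff_has_inverse.mpr
        ⟨fun t => (t.2.2 - (t.2.1 - t.1), t.1, t.2.1 - t.1), ?_, ?_⟩
      · rintro ⟨a, b, c⟩; simp
      · rintro ⟨a, b, c⟩; simp
    calc _ ≤ ∑ x0, ∑ y, ∑ x, (n (dd F y x (x + x0)) + n (dd F y (y + x) (x + x0))) := by
          refine sum_le_sum fun x0 _ => sum_le_sum fun y _ => sum_le_sum fun x _ => ?_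
          refine le_trans (le_of_eq ?_) (hn.add_le _ _)
          congr 1
          unfold KK dd
          have e1 : x + (x + x0) = x0 := by rw [← add_assoc, h2, zero_add]
          have e2 : y + (y + x) = x := by rw [← add_assoc, h2, zero_add]
          have e3 : y + x + (x + x0) = x0 + y := by
            rw [add_assoc, e1, add_comm]
          rw [e1, e2, e3, add_comm x y]
          abel
      _ = 2 * tot n F := by
          simp only [sum_add_distrib]
          rw [a1, a2]; ring
  have hN : (0 : ℝ) < Fintype.card H := by exact_mod_cast Fintype.card_pos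
  obtain ⟨x0, -, hx0⟩ := exists_le_of_sum_le (s := (univ : Finset H))
    (f := fun x0 => ∑ y, ∑ x, n (KK F y x - KK F y x0))
    (g := fun _ => 2 * tot n F / Fintype.card H) univ_nonempty (by
      rw [sum_const, card_univ, nsmul_eq_mul, mul_div_cancel₀ _ hN.ne']
      exact h3)
  refine ⟨fun y => KK F y x0, ?_⟩
  calc (Fintype.card H : ℝ) * ∑ y, ∑ x, n (KK F y x - KK F y x0)
      ≤ Fintype.card H * (2 * tot n F / Fintype.card H) := mul_le_mul_of_nonneg_left hx0 hN.le
    _ = 2 * tot n F := by rw [mul_div_cancel₀ _ hN.ne']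

/-- `F z x + F y (x + z) - F z (x + y) - F y x`. -/
def QQ (F : H → H → U) (y z x : H) : U := F z x + F y (x + z) - F z (x + y) - F y x

theorem approx4 {n : U → ℝ} (hn : IsLen n) (h2 : ∀ x : H, x + x = 0) (F : H → H → U) :
    ∃ κ : H → U, (Fintype.card H : ℝ) *
      ∑ y, ∑ z, n ((4 : ℤ) • F y z + (2 : ℤ) • κ (y + z) - (2 : ℤ) • κ y - (2 : ℤ) • κ z)
        ≤ 28 * tot n F := by
  obtain ⟨κ, hκ⟩ := exists_kappa hn h2 F
  refine ⟨κ, ?_⟩
  set N : ℝ := (Fintype.card H : ℝ) with hNdef
  have hN : 0 < N := by rw [hNdef]; exact_mod_cast Fintype.card_pos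
  set T := tot n F with hT
  -- basic sums
  have hκ' : ∀ (e : H × H × H → H × H × H), Function.Bijective e →
      ∑ y, ∑ z, ∑ x, n (KK F (e (y, z, x)).1 (e (y, z, x)).2.1 - κ (e (y, z, x)).1) ≤ 2 * T := by
    intro e he
    rw [sum3 (fun a b _ => n (KK F a b - κ a)) e he]
    refine le_trans (le_of_eq ?_) hκ
    rw [mul_sum]
    refine sum_congr rfl fun y _ => ?_
    rw [mul_sum]
    refine sum_congr rfl fun x _ => ?_
    change ∑ _z : H, n (KK F y x - κ y) = N * n (KK F y x - κ y)
    rw [sum_const, card_univ, nsmul_eq_mul]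
  have k1 : ∑ _y : H, ∑ z, ∑ x, n (KK F z x - κ z) ≤ 2 * T := by
    refine hκ' (fun t => (t.2.1, t.2.2, t.1)) ?_
    refine Function.bijective_iff_has_inverse.mpr ⟨fun t => (t.2.2, t.1, t.2.1), ?_, ?_⟩
    · rintro ⟨a, b, c⟩; rfl
    · rintro ⟨a, b, c⟩; rfl
  have k2 : ∑ y, ∑ z, ∑ x, n (KK F z (x + y) - κ z) ≤ 2 * T := by
    refine hκ' (fun t => (t.2.1, t.2.2 + t.1, t.1)) ?_
    refine Function.bijective_iff_has_inverse.mpr ⟨fun t => (t.2.2, t.1, t.2.1 - t.2.2), ?_, ?_⟩
    · rintro ⟨a, b, c⟩; simp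
    · rintro ⟨a, b, c⟩; simp
  have k3 : ∑ y, ∑ _z : H, ∑ x, n (KK F y x - κ y) ≤ 2 * T := by
    refine hκ' (fun t => (t.1, t.2.2, t.2.1)) ?_
    refine Function.bijective_iff_has_inverse.mpr ⟨fun t => (t.1, t.2.2, t.2.1), ?_, ?_⟩
    · rintro ⟨a, b, c⟩; rfl
    · rintro ⟨a, b, c⟩; rfl
  have k4 : ∑ y, ∑ z, ∑ x, n (KK F (y + z) x - κ (y + z)) ≤ 2 * T := by
    refine hκ' (fun t => (t.1 + t.2.1, t.2.2, t.2.1)) ?_
    refine Function.bijective_iff_has_inverse.mpr ⟨fun t => (t.1 - t.2.2, t.2.2, t.2.1), ?_, ?_⟩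
    · rintro ⟨a, b, c⟩; simp
    · rintro ⟨a, b, c⟩; simp
  have d1 : ∑ y, ∑ z, ∑ x, n (dd F y z x) = T := rfl
  have d2 : ∑ y, ∑ z, ∑ x, n (dd F z y x) = T := by
    rw [hT]; unfold tot
    exact sum_comm
  have d3 : ∑ y, ∑ z, ∑ x, n (dd F y z (x + (y + z))) = T := by
    rw [hT]; unfold tot
    refine sum3 (fun a b c => n (dd F a b c)) (fun t => (t.1, t.2.1, t.2.2 + (t.1 + t.2.1))) ?_
    refine Function.bijective_iff_has_inverse.mpr
      ⟨fun t => (t.1, t.2.1, t.2.2 - (t.1 + t.2.1)), ?_, ?_⟩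
    · rintro ⟨a, b, c⟩; simp
    · rintro ⟨a, b, c⟩; simp
  -- B versus Q
  have hQ : ∑ y, ∑ z, ∑ x, n ((F y z - F z y) - QQ F y z x) ≤ 2 * T := by
    calc _ ≤ ∑ y, ∑ z, ∑ x, (n (dd F y z x) + n (dd F z y x)) := by
          refine sum_le_sum fun y _ => sum_le_sum fun z _ => sum_le_sum fun x _ => ?_
          refine le_trans (le_of_eq ?_) (hn.sub_le _ _)
          congr 1
          unfold QQ dd
          rw [add_comm z y, add_comm x z, add_comm x y]
          abel
      _ = 2 * T := by
          simp only [sum_add_distrib]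
          rw [d1, d2]; ring
  have hQ' : ∑ y, ∑ z, ∑ x, n ((F y z - F z y) - QQ F y z (x + z)) ≤ 2 * T := by
    refine sum3' (fun a b c => n ((F a b - F b a) - QQ F a b c))
      (fun t => (t.1, t.2.1, t.2.2 + t.2.1)) ?_ _ hQ
    refine Function.bijective_iff_has_inverse.mpr ⟨fun t => (t.1, t.2.1, t.2.2 - t.2.1), ?_, ?_⟩
    · rintro ⟨a, b, c⟩; simp
    · rintro ⟨a, b, c⟩; simp
  have hB : ∑ y, ∑ z, ∑ _x : H, n ((2 : ℤ) • (F y z - F z y)) ≤ 8 * T := by
    calc _ ≤ ∑ y, ∑ z, ∑ x, ((n ((F y z - F z y) - QQ F y z x)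
            + n ((F y z - F z y) - QQ F y z (x + z)))
            + (n (KK F z x - κ z) + n (KK F z (x + y) - κ z))) := by
          refine sum_le_sum fun y _ => sum_le_sum fun z _ => sum_le_sum fun x _ => ?_
          have e : (2 : ℤ) • (F y z - F z y) = ((F y z - F z y) - QQ F y z x
              + ((F y z - F z y) - QQ F y z (x + z))) + ((KK F z x - κ z)
              - (KK F z (x + y) - κ z)) := by
            unfold QQ KK
            have e1 : x + z + z = x := by rw [add_assoc, h2, add_zero]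
            have e2 : x + y + z = x + z + y := by abel
            rw [e1, e2]
            abel
          rw [e]
          refine le_trans (hn.add_le _ _) ?_
          exact add_le_add (hn.add_le _ _) (hn.sub_le _ _)
      _ ≤ 8 * T := by
          simp only [sum_add_distrib]
          linarith
  have hF : ∑ y, ∑ z, ∑ _x : H,
      n ((2 : ℤ) • F y z + κ (y + z) - κ y - κ z - (F y z - F z y)) ≤ 10 * T := by
    calc _ ≤ ∑ y, ∑ z, ∑ x, (((n (dd F y z x) + n (dd F y z (x + (y + z))))
            + (n (KK F z (x + y) - κ z) + n (KK F y x - κ y)))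
            + (n (KK F (y + z) x - κ (y + z)) + n ((F y z - F z y) - QQ F y z x))) := by
          refine sum_le_sum fun y _ => sum_le_sum fun z _ => sum_le_sum fun x _ => ?_
          have e : (2 : ℤ) • F y z + κ (y + z) - κ y - κ z - (F y z - F z y)
              = ((dd F y z x + dd F y z (x + (y + z)))
              + ((KK F z (x + y) - κ z) + (KK F y x - κ y)))
              - ((KK F (y + z) x - κ (y + z)) + ((F y z - F z y) - QQ F y z x)) := by
            unfold QQ KK dd
            have e1 : z + (x + (y + z)) = x + y := by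
              have : z + (x + (y + z)) = x + y + (z + z) := by abel
              rw [this, h2, add_zero]
            have e2 : x + y + z = x + (y + z) := by abel
            rw [e1, e2, add_comm z x]
            abel
          rw [e]
          refine le_trans (hn.sub_le _ _) ?_
          refine add_le_add (le_trans (hn.add_le _ _) ?_) (hn.add_le _ _)
          exact add_le_add (hn.add_le _ _) (hn.add_le _ _)
      _ ≤ 10 * T := by
          simp only [sum_add_distrib]
          linarith
  have hfin : ∑ y, ∑ z, ∑ _x : H,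
      n ((4 : ℤ) • F y z + (2 : ℤ) • κ (y + z) - (2 : ℤ) • κ y - (2 : ℤ) • κ z) ≤ 28 * T := by
    calc _ ≤ ∑ y, ∑ z, ∑ _x : H, ((n ((2 : ℤ) • F y z + κ (y + z) - κ y - κ z - (F y z - F z y))
            + n ((2 : ℤ) • F y z + κ (y + z) - κ y - κ z - (F y z - F z y)))
            + n ((2 : ℤ) • (F y z - F z y))) := by
          refine sum_le_sum fun y _ => sum_le_sum fun z _ => sum_le_sum fun x _ => ?_
          have e : (4 : ℤ) • F y z + (2 : ℤ) • κ (y + z) - (2 : ℤ) • κ y - (2 : ℤ) • κ z
              = (((2 : ℤ) • F y z + κ (y + z) - κ y - κ z - (F y z - F z y))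
              + ((2 : ℤ) • F y z + κ (y + z) - κ y - κ z - (F y z - F z y)))
              + (2 : ℤ) • (F y z - F z y) := by
            abel
          rw [e]
          exact le_trans (hn.add_le _ _) (add_le_add (hn.add_le _ _) le_rfl)
      _ ≤ 28 * T := by
          simp only [sum_add_distrib]
          linarith
  refine le_trans (le_of_eq ?_) hfin
  rw [mul_sum]
  refine sum_congr rfl fun y _ => ?_
  rw [mul_sum]
  refine sum_congr rfl fun z _ => ?_
  rw [sum_const, card_univ, nsmul_eq_mul]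

end Pool.Agent.H46.N99
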