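import Mathlib
import Pool.Agent.H46.N99.Ana

/-!
# The circle as a group with a length; rounding to fourth roots of unity
-/

namespace Pool.Agent.H46.N99

open Finset

/-- The circle, written additively. -/
abbrev UC : Type := Additive Circle

/-- The complex number. -/
noncomputable def cx (g : UC) : ℂ := ((Additive.toMul g : Circle) : ℂ)

/-- The length. -/
noncomputable def len (g : UC) : ℝ := ‖cx g - 1‖

theorem cx_norm (g : UC) : ‖cx g‖ = 1 := Circle.norm_coe _

theorem cx_zero : cx 0 = 1 := by simp [cx]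

theorem cx_add (g h : UC) : cx (g + h) = cx g * cx h := by
  simp [cx]

theorem cx_neg (g : UC) : cx (-g) = (starRingEnd ℂ) (cx g) := by
  unfold cx
  rw [toMul_neg, Circle.coe_inv_eq_conj]

theorem isLen_len : IsLen len := by
  refine ⟨?_, ?_, ?_⟩
  · unfold len; rw [cx_zero]; simp
  · intro g
    unfold len
    rw [cx_neg]
    have : (starRingEnd ℂ) (cx g) - 1 = (starRingEnd ℂ) (cx g - 1) := by simp
    rw [this, RCLike.norm_conj]
  · intro g h
    unfold len
    rw [cx_add]
    have : cx g * cx h - 1 = (cx g - 1) * cx h + (cx h - 1) := by ring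
    rw [this]
    refine le_trans (norm_add_le _ _) ?_
    rw [norm_mul, cx_norm, mul_one]

theorem len_le_two (g : UC) : len g ≤ 2 := by
  unfold len
  refine le_trans (norm_sub_le _ _) ?_
  rw [cx_norm]; norm_num

theorem re_ge (g : UC) : 1 - len g ≤ (cx g).re := by
  have h1 : (1 - cx g).re ≤ ‖1 - cx g‖ := Complex.re_le_norm _
  rw [norm_sub_rev] at h1
  simp only [Complex.sub_re, Complex.one_re] at h1
  unfold len
  linarith

theorem exists_half (g : UC) : ∃ h : UC, (2 : ℤ) • h = g := by
  obtain ⟨t, ht⟩ : ∃ t : ℝ, Circle.exp t = Additive.toMul g := by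
    refine ⟨Complex.arg (Additive.toMul g : Circle), ?_⟩
    exact Circle.exp_arg _
  refine ⟨Additive.ofMul (Circle.exp (t / 2)), ?_⟩
  apply Additive.toMul.injective
  rw [← ht, two_smul, toMul_add, toMul_ofMul, ← Circle.exp_add]
  congr 1
  ring

/-! ### Fourth roots of unity -/

/-- The point `i` of the circle. -/
noncomputable def ic : UC := Additive.ofMul ⟨Complex.I, by simp [Submonoid.unitSphere]⟩

theorem cx_ic : cx ic = Complex.I := rfl

theorem cx_nsmul (k : ℕ) (g : UC) : cx (k • g) = cx g ^ k := by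
  induction k with
  | zero => simp [cx_zero]
  | succ k ih => rw [succ_nsmul, cx_add, ih, pow_succ]

theorem cx_zsmul4 (g : UC) : cx ((4 : ℤ) • g) = cx g ^ 4 := by
  have : (4 : ℤ) • g = (4 : ℕ) • g := by norm_cast
  rw [this, cx_nsmul]

theorem cx_inj {g h : UC} (e : cx g = cx h) : g = h := by
  apply Additive.toMul.injective
  exact Circle.ext e

/-- The embedding of `ZMod 4`. -/
noncomputable def io (p : ZMod 4) : UC := p.val • ic

theorem cx_io (p : ZMod 4) : cx (io p) = Complex.I ^ p.val := by
  unfold io; rw [cx_nsmul, cx_ic]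

theorem io_add (p q : ZMod 4) : io (p + q) = io p + io q := by
  apply cx_inj
  rw [cx_add, cx_io, cx_io, cx_io, ← pow_add, ZMod.val_add]
  conv_rhs => rw [pow_eq_pow_mod (p.val + q.val) Complex.I_pow_four]

theorem io_zero : io 0 = 0 := by
  apply cx_inj; rw [cx_io, cx_zero]; simp

theorem io_neg (p : ZMod 4) : io (-p) = - io p := by
  have h1 := io_add p (-p)
  rw [add_neg_cancel, io_zero] at h1
  exact (neg_eq_of_add_eq_zero_right h1.symm).symm

theorem io_sub (p q : ZMod 4) : io (p - q) = io p - io q := by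
  rw [sub_eq_add_neg, io_add, io_neg, sub_eq_add_neg]

theorem one_le_len_io {p : ZMod 4} (hp : p ≠ 0) : 1 ≤ len (io p) := by
  unfold len
  rw [cx_io]
  have h : ∀ z : ℂ, 1 ≤ |z.re| → 1 ≤ ‖z‖ := fun z hz => le_trans hz (Complex.abs_re_le_norm z)
  apply h
  fin_cases p
  · exact absurd rfl hp
  · change 1 ≤ |(Complex.I ^ 1 - 1).re|
    simp
  · change 1 ≤ |(Complex.I ^ 2 - 1).re|
    simp; norm_num
  · change 1 ≤ |(Complex.I ^ 3 - 1).re|
    have : Complex.I ^ 3 = -Complex.I := Complex.I_pow_three
    rw [this]; simp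

theorem round4 (g : UC) : ∃ p : ZMod 4, len (g - io p) ≤ len ((4 : ℤ) • g) := by
  set z := cx g with hz
  have hz1 : z.re * z.re + z.im * z.im = 1 := by
    have := cx_norm g
    rw [← hz] at this
    have h2 : Complex.normSq z = 1 := by
      rw [Complex.normSq_eq_norm_sq, this]; norm_num
    rw [Complex.normSq_apply] at h2
    exact h2
  -- the key estimate
  have key : ∀ r : ℂ, r ^ 4 = 1 → ‖r‖ = 1 → (1 / 2 : ℝ) ≤ (z * (starRingEnd ℂ) r).re ^ 2 →
      0 ≤ (z * (starRingEnd ℂ) r).re → ‖z - r‖ ≤ ‖z ^ 4 - 1‖ := by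
    intro r hr4 hr1 hc hc0
    set y := z * (starRingEnd ℂ) r with hy
    have hrr : (starRingEnd ℂ) r * r = 1 := by
      rw [mul_comm, Complex.mul_conj, Complex.normSq_eq_norm_sq, hr1]; norm_num
    have hzy : z = y * r := by
      rw [hy, mul_assoc, hrr, mul_one]
    have hy1 : y.re * y.re + y.im * y.im = 1 := by
      have h1 : ‖y‖ = 1 := by
        rw [hy, norm_mul, RCLike.norm_conj, hr1, hz, cx_norm]; norm_num
      have h2 : Complex.normSq y = 1 := by
        rw [Complex.normSq_eq_norm_sq, h1]; norm_num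
      rw [Complex.normSq_apply] at h2
      exact h2
    have e1 : ‖z - r‖ = ‖y - 1‖ := by
      rw [hzy]
      have : y * r - r = (y - 1) * r := by ring
      rw [this, norm_mul, hr1, mul_one]
    have e2 : z ^ 4 - 1 = (y - 1) * ((y + 1) * ((y - Complex.I) * (y + Complex.I))) := by
      rw [hzy, mul_pow, hr4]
      have hI : Complex.I * Complex.I = -1 := Complex.I_mul_I
      linear_combination (y ^ 2 - 1) * hI
    rw [e1, e2, norm_mul]
    have e3 : 1 ≤ ‖(y + 1) * ((y - Complex.I) * (y + Complex.I))‖ := by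
      have h5 : (1 : ℝ) ≤ ‖(y + 1) * ((y - Complex.I) * (y + Complex.I))‖ ^ 2 := by
        rw [← Complex.normSq_eq_norm_sq, Complex.normSq_mul, Complex.normSq_mul]
        simp only [Complex.normSq_apply, Complex.add_re, Complex.add_im, Complex.sub_re,
          Complex.sub_im, Complex.one_re, Complex.one_im, Complex.I_re, Complex.I_im]
        have h6 : (y.re + 1) * (y.re + 1) + (y.im + 0) * (y.im + 0) = 2 + 2 * y.re := by
          linear_combination hy1
        have h7 : ((y.re - 0) * (y.re - 0) + (y.im - 1) * (y.im - 1))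
            * ((y.re + 0) * (y.re + 0) + (y.im + 1) * (y.im + 1)) = 4 * y.re ^ 2 := by
          linear_combination (y.re * y.re + y.im * y.im - 1) * hy1
        rw [h6, h7]
        nlinarith
      nlinarith [norm_nonneg ((y + 1) * ((y - Complex.I) * (y + Complex.I)))]
    exact le_mul_of_one_le_right (norm_nonneg _) e3
  have goal : ∀ p : ZMod 4, ‖z - cx (io p)‖ ≤ ‖z ^ 4 - 1‖ →
      len (g - io p) ≤ len ((4 : ℤ) • g) := by
    intro p hp
    unfold len
    rw [cx_zsmul4, ← hz]
    refine le_trans (le_of_eq ?_) hp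
    rw [sub_eq_add_neg g (io p), cx_add, cx_neg, ← hz]
    have h1 : (starRingEnd ℂ) (cx (io p)) * cx (io p) = 1 := by
      rw [mul_comm, Complex.mul_conj, Complex.normSq_eq_norm_sq, cx_norm]; norm_num
    have h2 : z - cx (io p) = (z * (starRingEnd ℂ) (cx (io p)) - 1) * cx (io p) := by
      rw [sub_mul, mul_assoc, h1]; ring
    rw [h2, norm_mul, cx_norm, mul_one]
  have v0 : cx (io 0) = 1 := by rw [cx_io]; simp
  have v1 : cx (io 1) = Complex.I := by
    rw [cx_io]; change Complex.I ^ 1 = _; simp
  have v2 : cx (io 2) = -1 := by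
    rw [cx_io]; change Complex.I ^ 2 = _; simp
  have v3 : cx (io 3) = -Complex.I := by
    rw [cx_io]; change Complex.I ^ 3 = _; exact Complex.I_pow_three
  by_cases hab : z.im * z.im ≤ z.re * z.re
  · rcases le_total 0 z.re with h0 | h0
    · refine ⟨0, goal 0 ?_⟩
      rw [v0]
      refine key 1 (by norm_num) (by simp) ?_ ?_
      · simp; nlinarith
      · simpa using h0
    · refine ⟨2, goal 2 ?_⟩
      rw [v2]
      refine key (-1) (by norm_num) (by simp) ?_ ?_
      · simp; nlinarith
      · simpa using h0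
  · rw [not_le] at hab
    rcases le_total 0 z.im with h0 | h0
    · refine ⟨1, goal 1 ?_⟩
      rw [v1]
      refine key Complex.I Complex.I_pow_four (by simp) ?_ ?_
      · simp; nlinarith
      · simpa using h0
    · refine ⟨3, goal 3 ?_⟩
      rw [v3]
      refine key (-Complex.I) (by rw [neg_pow]; simp; norm_num) (by simp) ?_ ?_
      · simp; nlinarith
      · simpa using h0

end Pool.Agent.H46.N99
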