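import Mathlib
import Pool.Agent.H46.N99.Circ

/-!
# From a large cube average to an approximate cocycle
-/

namespace Pool.Agent.H46.N99

open Finset ComplexConjugate

variable {H : Type*} [AddCommGroup H]

/-- The product over a cube with base `(p, q)` and directions `(α, 0)`, `(β, β)`, `(0, γ)`. -/
noncomputable def cuf (φ : H → H → ℂ) (p q α β γ : H) : ℂ :=
  φ p q * conj (φ (p + α) q) * conj (φ (p + β) (q + β)) * conj (φ p (q + γ)) *
    φ (p + α + β) (q + β) * φ (p + α) (q + γ) * φ (p + β) (q + β + γ) *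
    conj (φ (p + α + β) (q + β + γ))

/-- The same for circle valued functions. -/
noncomputable def cuU (u : H → H → UC) (p q α β γ : H) : UC :=
  u p q - u (p + α) q - u (p + β) (q + β) - u p (q + γ) + u (p + α + β) (q + β) +
    u (p + α) (q + γ) + u (p + β) (q + β + γ) - u (p + α + β) (q + β + γ)

/-- The argument of a complex number. -/
noncomputable def pa (z : ℂ) : UC := Additive.ofMul (Circle.exp (Complex.arg z))

theorem pa_spec (z : ℂ) : z = (‖z‖ : ℂ) * cx (pa z) := by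
  unfold pa cx
  rw [toMul_ofMul, Circle.coe_exp]
  exact (Complex.norm_mul_exp_arg_mul_I z).symm

theorem cuf_eq (φ : H → H → ℂ) (p q α β γ : H) :
    cuf φ p q α β γ = ((‖φ p q‖ * ‖φ (p + α) q‖ * ‖φ (p + β) (q + β)‖ * ‖φ p (q + γ)‖ *
      ‖φ (p + α + β) (q + β)‖ * ‖φ (p + α) (q + γ)‖ * ‖φ (p + β) (q + β + γ)‖ *
      ‖φ (p + α + β) (q + β + γ)‖ : ℝ) : ℂ) * cx (cuU (fun y z => pa (φ y z)) p q α β γ) := by
  unfold cuf cuU
  simp only [sub_eq_add_neg, cx_add, cx_neg]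
  conv_lhs => rw [pa_spec (φ p q), pa_spec (φ (p + α) q), pa_spec (φ (p + β) (q + β)),
    pa_spec (φ p (q + γ)), pa_spec (φ (p + α + β) (q + β)), pa_spec (φ (p + α) (q + γ)),
    pa_spec (φ (p + β) (q + β + γ)), pa_spec (φ (p + α + β) (q + β + γ))]
  simp only [map_mul, Complex.conj_ofReal]
  push_cast
  ring

/-- One cube. -/
theorem len_cube (φ : H → H → ℂ) (hφ : ∀ y z, ‖φ y z‖ ≤ 1) (p q α β γ : H) (l : ℝ) (hl : 0 < l) :
    len (cuU (fun y z => pa (φ y z)) p q α β γ)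
      ≤ (1 - (cuf φ p q α β γ).re) * (1 + 1 / l) + l / 2 := by
  set R : ℝ := ‖φ p q‖ * ‖φ (p + α) q‖ * ‖φ (p + β) (q + β)‖ * ‖φ p (q + γ)‖ *
      ‖φ (p + α + β) (q + β)‖ * ‖φ (p + α) (q + γ)‖ * ‖φ (p + β) (q + β + γ)‖ *
      ‖φ (p + α + β) (q + β + γ)‖ with hR
  set z := cx (cuU (fun y z => pa (φ y z)) p q α β γ) with hz
  have hz1 : ‖z‖ = 1 := cx_norm _
  have hc : cuf φ p q α β γ = (R : ℂ) * z := cuf_eq φ p q α β γ
  have hR0 : 0 ≤ R := by positivity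
  have hR1 : R ≤ 1 := by
    rw [hR]
    have h := hφ
    have m : ∀ a b : ℝ, 0 ≤ a → a ≤ 1 → 0 ≤ b → b ≤ 1 → 0 ≤ a * b ∧ a * b ≤ 1 := by
      intro a b h1 h2 h3 h4
      exact ⟨mul_nonneg h1 h3, mul_le_one₀ h2 h3 h4⟩
    have s1 := m _ _ (norm_nonneg (φ p q)) (h _ _) (norm_nonneg (φ (p + α) q)) (h _ _)
    have s2 := m _ _ s1.1 s1.2 (norm_nonneg (φ (p + β) (q + β))) (h _ _)
    have s3 := m _ _ s2.1 s2.2 (norm_nonneg (φ p (q + γ))) (h _ _)
    have s4 := m _ _ s3.1 s3.2 (norm_nonneg (φ (p + α + β) (q + β))) (h _ _)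
    have s5 := m _ _ s4.1 s4.2 (norm_nonneg (φ (p + α) (q + γ))) (h _ _)
    have s6 := m _ _ s5.1 s5.2 (norm_nonneg (φ (p + β) (q + β + γ))) (h _ _)
    exact (m _ _ s6.1 s6.2 (norm_nonneg (φ (p + α + β) (q + β + γ))) (h _ _)).2
  set x := (cuf φ p q α β γ).re with hx
  have hnorm : ‖(R : ℂ) * z‖ = R := by
    rw [norm_mul, hz1, Complex.norm_real, Real.norm_of_nonneg hR0, mul_one]
  have hxR : x ≤ R := by
    have h0 := Complex.re_le_norm (cuf φ p q α β γ)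
    rw [hc, hnorm, ← hc] at h0
    exact h0
  have h1 : ‖z - (R : ℂ) * z‖ ≤ 1 - x := by
    have : z - (R : ℂ) * z = ((1 - R : ℝ) : ℂ) * z := by push_cast; ring
    rw [this, norm_mul, hz1, Complex.norm_real, Real.norm_of_nonneg (by linarith), mul_one]
    linarith
  have h2 : ‖(R : ℂ) * z - 1‖ ^ 2 ≤ 2 - 2 * x := by
    rw [← Complex.normSq_eq_norm_sq, Complex.normSq_sub]
    rw [Complex.normSq_eq_norm_sq, hnorm, Complex.normSq_one]
    simp only [map_one, mul_one]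
    rw [← hc, ← hx]
    nlinarith
  have h3 : ‖(R : ℂ) * z - 1‖ ≤ (1 - x) / l + l / 2 := by
    have h4 : 0 ≤ (‖(R : ℂ) * z - 1‖ - l) ^ 2 := sq_nonneg _
    have h5 : 2 * l * ‖(R : ℂ) * z - 1‖ ≤ (2 - 2 * x) + l ^ 2 := by nlinarith
    have h6 : (1 - x) / l + l / 2 = ((2 - 2 * x) + l ^ 2) / (2 * l) := by
      field_simp
    rw [h6, le_div_iff₀ (by positivity)]
    linarith
  have h7 : len (cuU (fun y z => pa (φ y z)) p q α β γ) = ‖z - 1‖ := rfl
  rw [h7]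
  calc ‖z - 1‖ = ‖(z - (R : ℂ) * z) + ((R : ℂ) * z - 1)‖ := by congr 1; ring
    _ ≤ (1 - x) + ((1 - x) / l + l / 2) := le_trans (norm_add_le _ _) (add_le_add h1 h3)
    _ = (1 - x) * (1 + 1 / l) + l / 2 := by ring

variable [Fintype H]

/-- The two-variable function at a base point. -/
noncomputable def Fab (u : H → H → UC) (a b : H) (y z : H) : UC :=
  u (y + a) (z + b) - u (y + a) b - u a (z + b) + u a b

omit [Fintype H] in
theorem dd_Fab (h2 : ∀ x : H, x + x = 0) (u : H → H → UC) (a b y s z : H) :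
    dd (Fab u a b) y s z = - cuU u a (s + b) y s z := by
  unfold dd Fab cuU
  have e1 : y + s + a = a + y + s := by abel
  have e2 : s + a = a + s := by abel
  have e3 : y + a = a + y := by abel
  have e4 : s + z + b = s + b + z := by abel
  have e5 : s + b + s = b := by
    have : s + b + s = b + (s + s) := by abel
    rw [this, h2, add_zero]
  have e6 : z + b = b + z := by abel
  rw [e1, e2, e3, e4, e5, e6]
  abel

theorem sum_shift5 (g : H → H → H → H → H → ℝ) :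
    ∑ a, ∑ b, ∑ y, ∑ s, ∑ z, g a (s + b) y s z = ∑ p, ∑ q, ∑ α, ∑ β, ∑ γ, g p q α β γ := by
  refine sum_congr rfl fun a _ => ?_
  have h1 : ∀ f : H → H → H → ℝ, ∑ b, ∑ y, ∑ s, f b y s = ∑ y, ∑ s, ∑ b, f b y s := by
    intro f
    rw [sum_comm]
    exact sum_congr rfl fun y _ => sum_comm
  rw [h1 (fun b y s => ∑ z, g a (s + b) y s z), h1 (fun b y s => ∑ z, g a b y s z)]
  refine sum_congr rfl fun y _ => sum_congr rfl fun s _ => ?_
  exact Equiv.sum_comp (Equiv.addLeft s) (fun b => ∑ z, g a b y s z)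

/-- A good base point. -/
theorem exists_base (h2 : ∀ x : H, x + x = 0) (φ : H → H → ℂ) (hφ : ∀ y z, ‖φ y z‖ ≤ 1)
    (h : (1 - 1 / 10 ^ 9) * (Fintype.card H : ℝ) ^ 5
      ≤ ∑ p, ∑ q, ∑ α, ∑ β, ∑ γ, (cuf φ p q α β γ).re) :
    ∃ a b : H, tot len (Fab (fun y z => pa (φ y z)) a b)
      ≤ 46 / 10 ^ 6 * (Fintype.card H : ℝ) ^ 3 := by
  set N : ℝ := (Fintype.card H : ℝ) with hN
  have hNpos : 0 < N := by rw [hN]; exact_mod_cast Fintype.card_pos
  set u : H → H → UC := fun y z => pa (φ y z) with hu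
  have hconst : ∀ c : ℝ, ∑ _p : H, ∑ _q : H, ∑ _α : H, ∑ _β : H, ∑ _γ : H, c = c * N ^ 5 := by
    intro c
    simp only [sum_const, card_univ, nsmul_eq_mul, ← hN]
    ring
  have h3 : ∑ p, ∑ q, ∑ α, ∑ β, ∑ γ, len (cuU u p q α β γ) ≤ 46 / 10 ^ 6 * N ^ 5 := by
    have h4 : ∑ p, ∑ q, ∑ α, ∑ β, ∑ γ, len (cuU u p q α β γ)
        ≤ ∑ p, ∑ q, ∑ α, ∑ β, ∑ γ, ((1 - (cuf φ p q α β γ).re) * (1 + 1 / (4 / 10 ^ 5))
          + (4 / 10 ^ 5) / 2) := by
      refine sum_le_sum fun p _ => sum_le_sum fun q _ => sum_le_sum fun α _ =>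
        sum_le_sum fun β _ => sum_le_sum fun γ _ => ?_
      exact len_cube φ hφ p q α β γ (4 / 10 ^ 5) (by norm_num)
    refine le_trans h4 ?_
    simp only [sum_add_distrib, ← sum_mul, sum_sub_distrib]
    rw [hconst 1, hconst]
    have h5 : 0 < N ^ 5 := by positivity
    nlinarith
  have h6 : ∑ t : H × H, tot len (Fab u t.1 t.2) ≤ ∑ _t : H × H, 46 / 10 ^ 6 * N ^ 3 := by
    rw [Fintype.sum_prod_type, sum_const, card_univ, Fintype.card_prod, nsmul_eq_mul]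
    push_cast
    rw [← hN]
    have h7 : ∑ a, ∑ b, tot len (Fab u a b) = ∑ p, ∑ q, ∑ α, ∑ β, ∑ γ, len (cuU u p q α β γ) := by
      rw [← sum_shift5 (fun p q α β γ => len (cuU u p q α β γ))]
      refine sum_congr rfl fun a _ => sum_congr rfl fun b _ => ?_
      unfold tot
      refine sum_congr rfl fun y _ => sum_congr rfl fun s _ => sum_congr rfl fun z _ => ?_
      rw [dd_Fab h2, isLen_len.neg]
    rw [h7]
    calc _ ≤ 46 / 10 ^ 6 * N ^ 5 := h3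
      _ = N * N * (46 / 10 ^ 6 * N ^ 3) := by ring
  obtain ⟨t, -, ht⟩ := exists_le_of_sum_le univ_nonempty h6
  exact ⟨t.1, t.2, ht⟩

/-- The modulus is close to one. -/
theorem sum_norm (φ : H → H → ℂ) (hφ : ∀ y z, ‖φ y z‖ ≤ 1)
    (h : (1 - 1 / 10 ^ 9) * (Fintype.card H : ℝ) ^ 5
      ≤ ∑ p, ∑ q, ∑ α, ∑ β, ∑ γ, (cuf φ p q α β γ).re) :
    (1 - 1 / 10 ^ 9) * (Fintype.card H : ℝ) ^ 2 ≤ ∑ p, ∑ q, ‖φ p q‖ := by
  set N : ℝ := (Fintype.card H : ℝ) with hN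
  have hNpos : 0 < N := by rw [hN]; exact_mod_cast Fintype.card_pos
  have h1 : ∑ p, ∑ q, ∑ α, ∑ β, ∑ γ, (cuf φ p q α β γ).re ≤ N ^ 3 * ∑ p, ∑ q, ‖φ p q‖ := by
    have h2 : N ^ 3 * ∑ p, ∑ q, ‖φ p q‖ = ∑ p, ∑ q, ∑ _α : H, ∑ _β : H, ∑ _γ : H, ‖φ p q‖ := by
      simp only [sum_const, card_univ, nsmul_eq_mul, ← hN, ← mul_sum]
      ring
    rw [h2]
    refine sum_le_sum fun p _ => sum_le_sum fun q _ => sum_le_sum fun α _ =>
        sum_le_sum fun β _ => sum_le_sum fun γ _ => ?_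
    refine le_trans (Complex.re_le_norm _) ?_
    unfold cuf
    simp only [norm_mul, RCLike.norm_conj]
    have m : ∀ a b : ℝ, 0 ≤ a → 0 ≤ b → b ≤ 1 → 0 ≤ a * b ∧ a * b ≤ a := by
      intro a b h1 h3 h4
      exact ⟨mul_nonneg h1 h3, mul_le_of_le_one_right h1 h4⟩
    have s1 := m _ _ (norm_nonneg (φ p q)) (norm_nonneg (φ (p + α) q)) (hφ _ _)
    have s2 := m _ _ s1.1 (norm_nonneg (φ (p + β) (q + β))) (hφ _ _)
    have s3 := m _ _ s2.1 (norm_nonneg (φ p (q + γ))) (hφ _ _)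
    have s4 := m _ _ s3.1 (norm_nonneg (φ (p + α + β) (q + β))) (hφ _ _)
    have s5 := m _ _ s4.1 (norm_nonneg (φ (p + α) (q + γ))) (hφ _ _)
    have s6 := m _ _ s5.1 (norm_nonneg (φ (p + β) (q + β + γ))) (hφ _ _)
    have s7 := m _ _ s6.1 (norm_nonneg (φ (p + α + β) (q + β + γ))) (hφ _ _)
    linarith [s1.2, s2.2, s3.2, s4.2, s5.2, s6.2, s7.2]
  have h3 := le_trans h h1
  have h4 : 0 < N ^ 3 := by positivity
  have h5 : N ^ 3 * ((1 - 1 / 10 ^ 9) * N ^ 2) ≤ N ^ 3 * ∑ p, ∑ q, ‖φ p q‖ := by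
    calc _ = (1 - 1 / 10 ^ 9) * N ^ 5 := by ring
      _ ≤ _ := h3
  exact le_of_mul_le_mul_left h5 h4

end Pool.Agent.H46.N99
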