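import Mathlib
import Pool.Agent.H46.N99.Cube

/-!
# The 99 percent theorem for cubes in the three directions
-/

namespace Pool.Agent.H46.N99

open Finset ComplexConjugate

/-- Exact cocycles with values in `ZMod 4`, in exponent two. -/
def T_COC4 : Prop := ∀ (H : Type) [AddCommGroup H] [Fintype H] [Module (ZMod 2) H]
  (D : H → H → ZMod 4), (∀ x y z, D x y + D (x + y) z = D y z + D x (y + z)) →
  ∃ (m : H →ₗ[ZMod 2] H →ₗ[ZMod 2] ZMod 2) (w : H → ℂ), (∀ x, ‖w x‖ = 1) ∧
    ∀ y z, Complex.I ^ (D y z).val = w y * w z * conj (w (y + z)) * (-1) ^ (m y z).val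

/-- The product over a cube, row form. -/
noncomputable def cubeR {H : Type} [AddCommGroup H] (φ : H → H → ℂ) (a0 a1 b0 b1 r0 r1 : H) : ℂ :=
  φ (a0 + b0) (b0 + r0) * conj (φ (a1 + b0) (b0 + r0)) * conj (φ (a0 + b1) (b1 + r0)) *
    conj (φ (a0 + b0) (b0 + r1)) * φ (a1 + b1) (b1 + r0) * φ (a1 + b0) (b0 + r1) *
    φ (a0 + b1) (b1 + r1) * conj (φ (a1 + b1) (b1 + r1))

/-- The 99 percent theorem. -/
def T_99 : Prop := ∀ (H : Type) [AddCommGroup H] [Fintype H] [Module (ZMod 2) H]
  (φ : H → H → ℂ), (∀ y z, ‖φ y z‖ ≤ 1) →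
  (1 - 1 / 10 ^ 9) * (Fintype.card H : ℝ) ^ 6
    ≤ (∑ a0, ∑ a1, ∑ b0, ∑ b1, ∑ r0, ∑ r1, cubeR φ a0 a1 b0 b1 r0 r1).re →
  ∃ (u v w : H → ℂ) (m : H →ₗ[ZMod 2] H →ₗ[ZMod 2] ZMod 2),
    (∀ x, ‖u x‖ ≤ 1) ∧ (∀ x, ‖v x‖ ≤ 1) ∧ (∀ x, ‖w x‖ ≤ 1) ∧
    (1 / 2) * (Fintype.card H : ℝ) ^ 2
      ≤ ‖∑ y, ∑ z, φ y z * u y * v z * w (y + z) * (-1) ^ (m y z).val‖

/-- Sign character of `ZMod 2`. -/
noncomputable def sg (k : ZMod 2) : ℂ := (-1) ^ k.val

theorem sg_zero : sg 0 = 1 := by unfold sg; simp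

theorem sg_one : sg 1 = -1 := by
  unfold sg
  have : (1 : ZMod 2).val = 1 := rfl
  rw [this, pow_one]

theorem sg_add (a b : ZMod 2) : sg (a + b) = sg a * sg b := by
  have h : ∀ a : ZMod 2, a = 0 ∨ a = 1 := by decide
  have h11 : (1 : ZMod 2) + 1 = 0 := by decide
  rcases h a with rfl | rfl <;> rcases h b with rfl | rfl <;>
    simp [sg_zero, sg_one, h11]

theorem sg_norm (a : ZMod 2) : ‖sg a‖ = 1 := by
  unfold sg; simp

theorem sg_mul_self (a : ZMod 2) : sg a * sg a = 1 := by
  unfold sg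
  rw [← pow_add, ← two_mul, pow_mul]; simp

theorem sg_neg (a : ZMod 2) : sg (-a) = sg a := by
  have : -a = a := by
    have h : ∀ a : ZMod 2, -a = a := by decide
    exact h a
  rw [this]

theorem dd_cob {H U : Type*} [AddCommGroup H] [AddCommGroup U] (F : H → H → U) (w : H → U)
    (x y z : H) : dd (fun y z => F y z + w y + w z - w (y + z)) x y z = dd F x y z := by
  unfold dd
  simp only
  rw [add_assoc x y z]
  abel

variable {H : Type} [AddCommGroup H] [Fintype H] [Module (ZMod 2) H]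

theorem approx_main (hcoc : T_COC4) (h2 : ∀ x : H, x + x = 0) (F : H → H → UC)
    (hF : tot len F ≤ 46 / 10 ^ 6 * (Fintype.card H : ℝ) ^ 3) :
    ∃ (A : H → ℂ) (m : H →ₗ[ZMod 2] H →ₗ[ZMod 2] ZMod 2), (∀ x, ‖A x‖ = 1) ∧
      ∑ y, ∑ z, ‖cx (F y z) - A y * A z * conj (A (y + z)) * sg (m y z)‖
        ≤ 21 / 100 * (Fintype.card H : ℝ) ^ 2 := by
  set N : ℝ := (Fintype.card H : ℝ) with hN
  have hNpos : 0 < N := by rw [hN]; exact_mod_cast Fintype.card_pos
  obtain ⟨κ, hκ⟩ := approx4 isLen_len h2 F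
  choose hf hhf using exists_half
  set T := tot len F with hT
  set w : H → UC := fun y => hf (- κ y) with hw
  have hw2 : ∀ y, (2 : ℤ) • w y = - κ y := fun y => hhf _
  set F3 : H → H → UC := fun y z => F y z + w y + w z - w (y + z) with hF3
  have hF4 : ∀ y z, (4 : ℤ) • F3 y z = (4 : ℤ) • F y z + (2 : ℤ) • κ (y + z) - (2 : ℤ) • κ y
      - (2 : ℤ) • κ z := by
    intro y z
    have e : ∀ y, κ y = -((2 : ℤ) • w y) := fun y => by rw [hw2]; abel
    rw [e y, e z, e (y + z), hF3]
    simp only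
    abel
  choose ro hro using round4
  set Φ : H → H → ZMod 4 := fun y z => ro (F3 y z) with hΦ
  have herr : N * ∑ y, ∑ z, len (F3 y z - io (Φ y z)) ≤ 28 * T := by
    refine le_trans (mul_le_mul_of_nonneg_left ?_ hNpos.le) hκ
    refine sum_le_sum fun y _ => sum_le_sum fun z _ => ?_
    rw [← hF4]
    exact hro _
  -- failures of the rounded function
  have hfail : fails Φ ≤ 113 * T := by
    have herr' : ∀ (e : H × H × H → H × H × H), Function.Bijective e →
        ∑ x, ∑ y, ∑ z, len (F3 (e (x, y, z)).1 (e (x, y, z)).2.1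
          - io (Φ (e (x, y, z)).1 (e (x, y, z)).2.1)) ≤ 28 * T := by
      intro e he
      rw [sum3 (fun a b _ => len (F3 a b - io (Φ a b))) e he]
      refine le_trans (le_of_eq ?_) herr
      rw [mul_sum]
      refine sum_congr rfl fun y _ => ?_
      rw [mul_sum]
      refine sum_congr rfl fun x _ => ?_
      change ∑ _z : H, len (F3 y x - io (Φ y x)) = N * len (F3 y x - io (Φ y x))
      rw [sum_const, card_univ, nsmul_eq_mul]
    have k1 : ∑ x, ∑ y, ∑ _z : H, len (F3 x y - io (Φ x y)) ≤ 28 * T :=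
      herr' (fun t => t) Function.bijective_id
    have k2 : ∑ x, ∑ y, ∑ z, len (F3 (x + y) z - io (Φ (x + y) z)) ≤ 28 * T := by
      refine herr' (fun t => (t.1 + t.2.1, t.2.2, t.1)) ?_
      refine Function.bijective_iff_has_inverse.mpr ⟨fun t => (t.2.2, t.1 - t.2.2, t.2.1), ?_, ?_⟩
      · rintro ⟨a, b, c⟩; simp
      · rintro ⟨a, b, c⟩; simp
    have k3 : ∑ _x : H, ∑ y, ∑ z, len (F3 y z - io (Φ y z)) ≤ 28 * T := by
      refine herr' (fun t => (t.2.1, t.2.2, t.1)) ?_
      refine Function.bijective_iff_has_inverse.mpr ⟨fun t => (t.2.2, t.1, t.2.1), ?_, ?_⟩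
      · rintro ⟨a, b, c⟩; rfl
      · rintro ⟨a, b, c⟩; rfl
    have k4 : ∑ x, ∑ y, ∑ z, len (F3 x (y + z) - io (Φ x (y + z))) ≤ 28 * T := by
      refine herr' (fun t => (t.1, t.2.1 + t.2.2, t.2.1)) ?_
      refine Function.bijective_iff_has_inverse.mpr ⟨fun t => (t.1, t.2.2, t.2.1 - t.2.2), ?_, ?_⟩
      · rintro ⟨a, b, c⟩; simp
      · rintro ⟨a, b, c⟩; simp
    have k5 : ∑ x, ∑ y, ∑ z, len (dd F3 x y z) = T := by
      rw [hT]; unfold tot
      refine sum_congr rfl fun x _ => sum_congr rfl fun y _ => sum_congr rfl fun z _ => ?_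
      rw [hF3, dd_cob]
    calc fails Φ ≤ ∑ x, ∑ y, ∑ z, (len (dd F3 x y z) + ((len (F3 x y - io (Φ x y))
            + len (F3 (x + y) z - io (Φ (x + y) z))) + (len (F3 y z - io (Φ y z))
            + len (F3 x (y + z) - io (Φ x (y + z)))))) := by
          unfold fails
          refine sum_le_sum fun x _ => sum_le_sum fun y _ => sum_le_sum fun z _ => ?_
          by_cases hc : Co Φ x y z
          · rw [J_of_true hc]
            have n1 := isLen_len.nonneg (dd F3 x y z)
            have n2 := isLen_len.nonneg (F3 x y - io (Φ x y))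
            have n3 := isLen_len.nonneg (F3 (x + y) z - io (Φ (x + y) z))
            have n4 := isLen_len.nonneg (F3 y z - io (Φ y z))
            have n5 := isLen_len.nonneg (F3 x (y + z) - io (Φ x (y + z)))
            linarith
          · rw [J_of_false hc]
            have hne : Φ x y + Φ (x + y) z - Φ y z - Φ x (y + z) ≠ 0 := by
              intro h0
              apply hc
              unfold Co
              have : Φ x y + Φ (x + y) z = (Φ x y + Φ (x + y) z - Φ y z - Φ x (y + z))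
                + (Φ y z + Φ x (y + z)) := by abel
              rw [this, h0, zero_add]
            refine le_trans (one_le_len_io hne) ?_
            rw [io_sub, io_sub, io_add]
            have e : io (Φ x y) + io (Φ (x + y) z) - io (Φ y z) - io (Φ x (y + z))
                = dd F3 x y z - (((F3 x y - io (Φ x y)) + (F3 (x + y) z - io (Φ (x + y) z)))
                - ((F3 y z - io (Φ y z)) + (F3 x (y + z) - io (Φ x (y + z))))) := by
              unfold dd; abel
            rw [e]
            refine le_trans (isLen_len.sub_le _ _) (add_le_add le_rfl ?_)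
            exact le_trans (isLen_len.sub_le _ _)
              (add_le_add (isLen_len.add_le _ _) (isLen_len.add_le _ _))
      _ ≤ 113 * T := by
          simp only [sum_add_distrib]
          rw [k5]
          linarith
  obtain ⟨D, c, hD, hc⟩ := stab Φ (by
    rw [← hN]
    have : 0 < N ^ 3 := by positivity
    nlinarith)
  rw [← hN] at hc
  obtain ⟨m, w', hw', hDw⟩ := hcoc H D (fun x y z => hD x y z)
  refine ⟨fun y => w' y * conj (cx (io (c y))) * conj (cx (w y)), m, ?_, ?_⟩
  · intro x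
    rw [norm_mul, norm_mul, hw', RCLike.norm_conj, RCLike.norm_conj, cx_norm, cx_norm]
    norm_num
  · have hpt : ∀ y z, ‖cx (F y z) - (w' y * conj (cx (io (c y))) * conj (cx (w y)))
        * (w' z * conj (cx (io (c z))) * conj (cx (w z)))
        * conj (w' (y + z) * conj (cx (io (c (y + z)))) * conj (cx (w (y + z)))) * sg (m y z)‖
        ≤ len (F3 y z - io (Φ y z)) + 2 * J (Φ y z = D y z - c y - c z + c (y + z)) := by
      intro y z
      have e1 : (w' y * conj (cx (io (c y))) * conj (cx (w y)))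
          * (w' z * conj (cx (io (c z))) * conj (cx (w z)))
          * conj (w' (y + z) * conj (cx (io (c (y + z)))) * conj (cx (w (y + z)))) * sg (m y z)
          = cx (io (D y z - c y - c z + c (y + z)) - w y - w z + w (y + z)) := by
        have e2 : cx (io (D y z)) = w' y * w' z * conj (w' (y + z)) * sg (m y z) := by
          rw [cx_io, hDw]; rfl
        simp only [io_add, sub_eq_add_neg, io_neg, cx_add, cx_neg, e2, map_mul,
          Complex.conj_conj]
        ring
      rw [e1]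
      have e3 : F y z = F3 y z - w y - w z + w (y + z) := by
        rw [hF3]; simp only; abel
      rw [e3]
      set g := D y z - c y - c z + c (y + z) with hg
      have e4 : cx (F3 y z - w y - w z + w (y + z)) - cx (io g - w y - w z + w (y + z))
          = (cx (F3 y z - io g) - 1) * cx (io g - w y - w z + w (y + z)) := by
        have e5 : F3 y z - w y - w z + w (y + z) = (F3 y z - io g)
            + (io g - w y - w z + w (y + z)) := by abel
        rw [e5, cx_add]; ring
      rw [e4, norm_mul, cx_norm, mul_one]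
      change len (F3 y z - io g) ≤ _
      by_cases hJ : Φ y z = g
      · rw [J_of_true hJ, hJ]; linarith
      · rw [J_of_false hJ]
        have := len_le_two (F3 y z - io g)
        have := isLen_len.nonneg (F3 y z - io (Φ y z))
        linarith
    refine le_trans (sum_le_sum fun y _ => sum_le_sum fun z _ => hpt y z) ?_
    simp only [sum_add_distrib, ← mul_sum]
    have h5 : N * (∑ y, ∑ z, len (F3 y z - io (Φ y z))
        + 2 * ∑ y, ∑ z, J (Φ y z = D y z - c y - c z + c (y + z)))
        ≤ N * (21 / 100 * N ^ 2) := by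
      rw [mul_add]
      have h6 : N * (2 * ∑ y, ∑ z, J (Φ y z = D y z - c y - c z + c (y + z)))
          ≤ 2 * (20 * (113 * T)) := by
        have : N * (2 * ∑ y, ∑ z, J (Φ y z = D y z - c y - c z + c (y + z)))
          = 2 * (N * ∑ y, ∑ z, J (Φ y z = D y z - c y - c z + c (y + z))) := by ring
        rw [this]
        linarith
      have h7 : N * (21 / 100 * N ^ 2) = 21 / 100 * N ^ 3 := by ring
      rw [h7]
      have : 0 < N ^ 3 := by positivity
      nlinarith
    exact le_of_mul_le_mul_left h5 hNpos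

theorem t99_base (hcoc : T_COC4) (h2 : ∀ x : H, x + x = 0) (φ : H → H → ℂ)
    (hφ : ∀ y z, ‖φ y z‖ ≤ 1)
    (h : (1 - 1 / 10 ^ 9) * (Fintype.card H : ℝ) ^ 5
      ≤ ∑ p, ∑ q, ∑ α, ∑ β, ∑ γ, (cuf φ p q α β γ).re) :
    ∃ (u v w : H → ℂ) (m : H →ₗ[ZMod 2] H →ₗ[ZMod 2] ZMod 2),
    (∀ x, ‖u x‖ ≤ 1) ∧ (∀ x, ‖v x‖ ≤ 1) ∧ (∀ x, ‖w x‖ ≤ 1) ∧
    (1 / 2) * (Fintype.card H : ℝ) ^ 2
      ≤ ‖∑ y, ∑ z, φ y z * u y * v z * w (y + z) * (-1) ^ (m y z).val‖ := by
  set N : ℝ := (Fintype.card H : ℝ) with hN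
  have hNpos : 0 < N := by rw [hN]; exact_mod_cast Fintype.card_pos
  obtain ⟨a, b, hab⟩ := exists_base h2 φ hφ h
  obtain ⟨A, m, hA, hsum⟩ := approx_main hcoc h2 _ hab
  have hnorm := sum_norm φ hφ h
  rw [← hN] at hsum hnorm
  set uu : H → H → UC := fun y z => pa (φ y z) with huu
  -- the functions
  set u : H → ℂ := fun y => conj (A (y - a)) * conj (cx (uu y b)) * sg (m y b) * cx (uu a b)
    * sg (m a b) with hu
  set v : H → ℂ := fun z => conj (A (z - b)) * conj (cx (uu a z)) * sg (m a z) with hv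
  set w : H → ℂ := fun s => A (s - a - b) with hw
  refine ⟨u, v, w, m, ?_, ?_, ?_, ?_⟩
  · intro x
    rw [hu]
    simp only [norm_mul, RCLike.norm_conj, hA, cx_norm, sg_norm]
    norm_num
  · intro x
    rw [hv]
    simp only [norm_mul, RCLike.norm_conj, hA, cx_norm, sg_norm]
    norm_num
  · intro x
    rw [hw]
    exact (hA _).le
  · -- pointwise lower bound
    have hpt : ∀ y z, ‖φ (y + a) (z + b)‖ - ‖cx (Fab uu a b y z)
        - A y * A z * conj (A (y + z)) * sg (m y z)‖
        ≤ (φ (y + a) (z + b) * u (y + a) * v (z + b) * w ((y + a) + (z + b))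
          * (-1) ^ (m (y + a) (z + b)).val).re := by
      intro y z
      set E := cx (Fab uu a b y z) - A y * A z * conj (A (y + z)) * sg (m y z) with hE
      have hAA : ∀ x, A x * conj (A x) = 1 := by
        intro x
        rw [Complex.mul_conj, Complex.normSq_eq_norm_sq, hA]; norm_num
      have hcc : ∀ g, cx g * conj (cx g) = 1 := by
        intro g
        rw [Complex.mul_conj, Complex.normSq_eq_norm_sq, cx_norm]; norm_num
      have e1 : φ (y + a) (z + b) * u (y + a) * v (z + b) * w ((y + a) + (z + b))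
          * (-1) ^ (m (y + a) (z + b)).val
          = (‖φ (y + a) (z + b)‖ : ℂ) * (1 + E * (conj (A y) * conj (A z) * A (y + z)
            * sg (m y z))) := by
        have e2 : (-1 : ℂ) ^ (m (y + a) (z + b)).val
            = sg (m y z) * sg (m y b) * sg (m a z) * sg (m a b) := by
          change sg (m (y + a) (z + b)) = _
          rw [map_add m y a, LinearMap.add_apply, map_add (m y) z b, map_add (m a) z b, sg_add, sg_add,
            sg_add]
          ring
        have e3 : φ (y + a) (z + b) = (‖φ (y + a) (z + b)‖ : ℂ) * cx (uu (y + a) (z + b)) :=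
          pa_spec _
        have e4 : cx (Fab uu a b y z) = cx (uu (y + a) (z + b)) * conj (cx (uu (y + a) b))
            * conj (cx (uu a (z + b))) * cx (uu a b) := by
          unfold Fab
          simp only [sub_eq_add_neg, cx_add, cx_neg]
        have e5 : u (y + a) = conj (A y) * conj (cx (uu (y + a) b)) * (sg (m y b) * sg (m a b))
            * cx (uu a b) * sg (m a b) := by
          rw [hu]
          simp only [add_sub_cancel_right]
          rw [map_add, LinearMap.add_apply, sg_add]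
        have e6 : v (z + b) = conj (A z) * conj (cx (uu a (z + b)))
            * (sg (m a z) * sg (m a b)) := by
          rw [hv]
          simp only [add_sub_cancel_right]
          rw [map_add, sg_add]
        have e7 : w ((y + a) + (z + b)) = A (y + z) := by
          change A ((y + a) + (z + b) - a - b) = A (y + z)
          congr 1
          abel
        have e8 : E * (conj (A y) * conj (A z) * A (y + z) * sg (m y z))
            = cx (Fab uu a b y z) * (conj (A y) * conj (A z) * A (y + z) * sg (m y z)) - 1 := by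
          rw [hE]
          have s1 := hAA y
          have s2 := hAA z
          have s3 := hAA (y + z)
          have s4 := sg_mul_self (m y z)
          have : A y * A z * conj (A (y + z)) * sg (m y z)
              * (conj (A y) * conj (A z) * A (y + z) * sg (m y z)) = 1 := by
            calc _ = (A y * conj (A y)) * (A z * conj (A z)) * (A (y + z) * conj (A (y + z)))
                * (sg (m y z) * sg (m y z)) := by ring
              _ = 1 := by rw [s1, s2, s3, s4]; norm_num
          rw [sub_mul, this]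
        rw [e8, e2, e5, e6, e7, e4]
        conv_lhs => rw [e3]
        have t1 := sg_mul_self (m y b)
        have t2 := sg_mul_self (m a z)
        have t3 := sg_mul_self (m a b)
        have : (‖φ (y + a) (z + b)‖ : ℂ) * cx (uu (y + a) (z + b))
            * (conj (A y) * conj (cx (uu (y + a) b)) * (sg (m y b) * sg (m a b))
            * cx (uu a b) * sg (m a b))
            * (conj (A z) * conj (cx (uu a (z + b))) * (sg (m a z) * sg (m a b)))
            * A (y + z) * (sg (m y z) * sg (m y b) * sg (m a z) * sg (m a b))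
            = (‖φ (y + a) (z + b)‖ : ℂ) * (cx (uu (y + a) (z + b)) * conj (cx (uu (y + a) b))
            * conj (cx (uu a (z + b))) * cx (uu a b) * (conj (A y) * conj (A z) * A (y + z)
            * sg (m y z))) * ((sg (m y b) * sg (m y b)) * (sg (m a z) * sg (m a z))
            * (sg (m a b) * sg (m a b)) * (sg (m a b) * sg (m a b))) := by ring
        rw [this, t1, t2, t3]
        ring
      rw [e1]
      have e9 : ((‖φ (y + a) (z + b)‖ : ℂ) * (1 + E * (conj (A y) * conj (A z) * A (y + z)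
            * sg (m y z)))).re = ‖φ (y + a) (z + b)‖ * (1 + (E * (conj (A y) * conj (A z)
            * A (y + z) * sg (m y z))).re) := by
        rw [Complex.re_ofReal_mul, Complex.add_re, Complex.one_re]
      rw [e9]
      have e10 : ‖E * (conj (A y) * conj (A z) * A (y + z) * sg (m y z))‖ = ‖E‖ := by
        simp only [norm_mul, RCLike.norm_conj, hA, sg_norm, mul_one]
      have e11 : -‖E‖ ≤ (E * (conj (A y) * conj (A z) * A (y + z) * sg (m y z))).re := by
        have := Complex.abs_re_le_norm (E * (conj (A y) * conj (A z) * A (y + z) * sg (m y z)))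
        rw [e10] at this
        exact neg_le_of_abs_le this
      have e12 := hφ (y + a) (z + b)
      have e13 := norm_nonneg (φ (y + a) (z + b))
      have e14 := norm_nonneg E
      nlinarith
    have hshift : ∑ y, ∑ z, φ y z * u y * v z * w (y + z) * (-1) ^ (m y z).val
        = ∑ y, ∑ z, φ (y + a) (z + b) * u (y + a) * v (z + b) * w ((y + a) + (z + b))
          * (-1) ^ (m (y + a) (z + b)).val := by
      rw [← Equiv.sum_comp (Equiv.addRight a)]
      refine sum_congr rfl fun y _ => ?_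
      rw [← Equiv.sum_comp (Equiv.addRight b)]
      rfl
    rw [hshift]
    refine le_trans ?_ (Complex.re_le_norm _)
    rw [Complex.re_sum]
    have hres : ∀ y : H, (∑ z, φ (y + a) (z + b) * u (y + a) * v (z + b)
        * w ((y + a) + (z + b)) * (-1) ^ (m (y + a) (z + b)).val).re
        = ∑ z, (φ (y + a) (z + b) * u (y + a) * v (z + b) * w ((y + a) + (z + b))
          * (-1) ^ (m (y + a) (z + b)).val).re := fun y => Complex.re_sum _ _
    rw [sum_congr rfl fun y _ => hres y]
    refine le_trans ?_ (sum_le_sum fun y _ => sum_le_sum fun z _ => hpt y z)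
    simp only [sum_sub_distrib]
    have hs2 : ∑ y, ∑ z, ‖φ (y + a) (z + b)‖ = ∑ y, ∑ z, ‖φ y z‖ := by
      rw [← Equiv.sum_comp (Equiv.addRight a) (fun y => ∑ z, ‖φ y z‖)]
      refine sum_congr rfl fun y _ => ?_
      exact Equiv.sum_comp (Equiv.addRight b) (fun z => ‖φ (y + a) z‖)
    rw [hs2]
    have : 0 < N ^ 2 := by positivity
    nlinarith

omit [Module (ZMod 2) H] in
/-- Change from rows to bases. -/
theorem sum_rows (h2 : ∀ x : H, x + x = 0) (φ : H → H → ℂ) :
    (∑ a0, ∑ a1, ∑ b0, ∑ b1, ∑ r0, ∑ r1, cubeR φ a0 a1 b0 b1 r0 r1).re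
      = (Fintype.card H : ℝ) * ∑ p, ∑ q, ∑ α, ∑ β, ∑ γ, (cuf φ p q α β γ).re := by
  have h3 : ∀ a0 a1 b0 b1 r0 r1 : H, cubeR φ a0 a1 b0 b1 r0 r1
      = cuf φ (a0 + b0) (b0 + r0) (a0 + a1) (b0 + b1) (r0 + r1) := by
    intro a0 a1 b0 b1 r0 r1
    unfold cubeR cuf
    have f1 : a0 + b0 + (a0 + a1) = a1 + b0 := by
      have : a0 + b0 + (a0 + a1) = a1 + b0 + (a0 + a0) := by abel
      rw [this, h2, add_zero]
    have f2 : a0 + b0 + (b0 + b1) = a0 + b1 := by
      have : a0 + b0 + (b0 + b1) = a0 + b1 + (b0 + b0) := by abel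
      rw [this, h2, add_zero]
    have f3 : b0 + r0 + (b0 + b1) = b1 + r0 := by
      have : b0 + r0 + (b0 + b1) = b1 + r0 + (b0 + b0) := by abel
      rw [this, h2, add_zero]
    have f4 : b0 + r0 + (r0 + r1) = b0 + r1 := by
      have : b0 + r0 + (r0 + r1) = b0 + r1 + (r0 + r0) := by abel
      rw [this, h2, add_zero]
    have f5 : a1 + b0 + (b0 + b1) = a1 + b1 := by
      have : a1 + b0 + (b0 + b1) = a1 + b1 + (b0 + b0) := by abel
      rw [this, h2, add_zero]
    have f6 : b1 + r0 + (r0 + r1) = b1 + r1 := by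
      have : b1 + r0 + (r0 + r1) = b1 + r1 + (r0 + r0) := by abel
      rw [this, h2, add_zero]
    rw [f1, f2, f3, f4, f5, f6]
  have h4 : ∑ a0, ∑ a1, ∑ b0, ∑ b1, ∑ r0, ∑ r1, cubeR φ a0 a1 b0 b1 r0 r1
      = ∑ _b0 : H, ∑ p, ∑ q, ∑ α, ∑ β, ∑ γ, cuf φ p q α β γ := by
    simp only [h3]
    -- sums over r1, then r0, then b1, then a1, a0 are shifted
    have t1 : ∀ a0 a1 b0 b1 r0 : H,
        ∑ r1, cuf φ (a0 + b0) (b0 + r0) (a0 + a1) (b0 + b1) (r0 + r1)
        = ∑ γ, cuf φ (a0 + b0) (b0 + r0) (a0 + a1) (b0 + b1) γ := fun a0 a1 b0 b1 r0 =>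
      Equiv.sum_comp (Equiv.addLeft r0) (fun γ => cuf φ (a0 + b0) (b0 + r0) (a0 + a1) (b0 + b1) γ)
    simp only [t1]
    have t2 : ∀ a0 a1 b0 b1 : H,
        ∑ r0, ∑ γ, cuf φ (a0 + b0) (b0 + r0) (a0 + a1) (b0 + b1) γ
        = ∑ q, ∑ γ, cuf φ (a0 + b0) q (a0 + a1) (b0 + b1) γ := fun a0 a1 b0 b1 =>
      Equiv.sum_comp (Equiv.addLeft b0) (fun q => ∑ γ, cuf φ (a0 + b0) q (a0 + a1) (b0 + b1) γ)
    simp only [t2]
    have t3 : ∀ a0 a1 b0 : H,
        ∑ b1, ∑ q, ∑ γ, cuf φ (a0 + b0) q (a0 + a1) (b0 + b1) γ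
        = ∑ β, ∑ q, ∑ γ, cuf φ (a0 + b0) q (a0 + a1) β γ := fun a0 a1 b0 =>
      Equiv.sum_comp (Equiv.addLeft b0) (fun β => ∑ q, ∑ γ, cuf φ (a0 + b0) q (a0 + a1) β γ)
    simp only [t3]
    have t4 : ∀ a0 : H,
        ∑ a1, ∑ b0, ∑ β, ∑ q, ∑ γ, cuf φ (a0 + b0) q (a0 + a1) β γ
        = ∑ α, ∑ b0, ∑ β, ∑ q, ∑ γ, cuf φ (a0 + b0) q α β γ := fun a0 =>
      Equiv.sum_comp (Equiv.addLeft a0)
        (fun α => ∑ b0, ∑ β, ∑ q, ∑ γ, cuf φ (a0 + b0) q α β γ)
    simp only [t4]
    have t5 : ∀ a0 α : H,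
        ∑ b0, ∑ β, ∑ q, ∑ γ, cuf φ (a0 + b0) q α β γ
        = ∑ p, ∑ β, ∑ q, ∑ γ, cuf φ p q α β γ := fun a0 α =>
      Equiv.sum_comp (Equiv.addLeft a0) (fun p => ∑ β, ∑ q, ∑ γ, cuf φ p q α β γ)
    simp only [t5]
    refine sum_congr rfl fun _ _ => ?_
    rw [sum_comm]
    refine sum_congr rfl fun p _ => ?_
    have t6 : ∀ α : H, ∑ β, ∑ q, ∑ γ, cuf φ p q α β γ = ∑ q, ∑ β, ∑ γ, cuf φ p q α β γ :=
      fun α => sum_comm
    simp only [t6]
    exact sum_comm
  rw [h4, sum_const, card_univ, nsmul_eq_mul]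
  rw [← Complex.ofReal_natCast, Complex.re_ofReal_mul]
  simp only [Complex.re_sum]

theorem t99 (hcoc : T_COC4) : T_99 := by
  intro H _ _ _ φ hφ h
  have h2 : ∀ x : H, x + x = 0 := fun x => by
    have : (2 : ZMod 2) • x = 0 := by
      have h0 : (2 : ZMod 2) = 0 := by decide
      rw [h0, zero_smul]
    rw [← this, two_smul]
  refine t99_base hcoc h2 φ hφ ?_
  rw [sum_rows h2] at h
  have hNpos : (0 : ℝ) < (Fintype.card H : ℝ) := by exact_mod_cast Fintype.card_pos
  have h3 : (Fintype.card H : ℝ) * ((1 - 1 / 10 ^ 9) * (Fintype.card H : ℝ) ^ 5)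
      ≤ (Fintype.card H : ℝ) * ∑ p, ∑ q, ∑ α, ∑ β, ∑ γ, (cuf φ p q α β γ).re := by
    refine le_trans (le_of_eq ?_) h
    ring
  exact le_of_mul_le_mul_left h3 hNpos

end Pool.Agent.H46.N99
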