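import Mathlib
import Pool.Agent.H46.N99.Main
import Pool.Agent.H65.SQ.Coc4

/-!
# The 99 percent theorem, unconditional
-/

namespace Pool.Agent.H46.N99

theorem coc4' : T_COC4 := fun _H _ _ _ D hc => by
  obtain ⟨m, w, hw, h⟩ := Pool.Agent.H65.SQ.coc4 D hc
  exact ⟨m, w, hw, h⟩

theorem t99_final : T_99 := t99 coc4'

end Pool.Agent.H46.N99
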